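import Pool.Agent.H20.OC.ALSm

/-!
# OC, row ALS: conclusion
-/

set_option autoImplicit false

namespace Pool.OC

open Finset Real
open Pool.Agent.H49.Ent Pool.Agent.H32.Dense Pool.STK Pool.KAF

namespace ALS

variable (d : Dat) (J : d.Om → Set ℕ) (m : d.Lam → ℤ) (n : ℕ)

open Classical in
/-- The depths with a small subcell. -/
noncomputable def Bf (η : ℝ) (ω : d.Om) : Finset ℕ :=
  (range (d.X - 16 * n)).filter (fun s =>
    law d.P (fun v => d.GA m (8 * n + s + 1) (d.L v)) (d.GA m (8 * n + s + 1) (d.L ω)) <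
      η * law d.P (fun v => d.GA m (8 * n + s) (d.L v)) (d.GA m (8 * n + s) (d.L ω)))

theorem Bf_mean {A : ℕ} (hOK : d.OK A) {η : ℝ} (hη : 0 ≤ η) :
    Ex d.P (fun ω => ((Bf d m n η ω).card : ℝ)) ≤ 4 * η * ((d.X - 16 * n : ℕ) : ℝ) := by
  classical
  have h1 : ∀ ω, ((Bf d m n η ω).card : ℝ) = ∑ s ∈ range (d.X - 16 * n),
      (if ω ∈ {ω | law d.P (fun v => d.GA m (8 * n + s + 1) (d.L v))
        (d.GA m (8 * n + s + 1) (d.L ω)) <
      η * law d.P (fun v => d.GA m (8 * n + s) (d.L v)) (d.GA m (8 * n + s) (d.L ω))}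
      then (1 : ℝ) else 0) := by
    intro ω
    unfold Bf
    rw [Finset.card_filter]
    push_cast
    refine Finset.sum_congr rfl fun s _ => ?_
    simp only [Set.mem_ofPred_eq]
  simp only [h1]
  have h2 : Ex d.P (fun ω => ∑ s ∈ range (d.X - 16 * n),
      (if ω ∈ {ω | law d.P (fun v => d.GA m (8 * n + s + 1) (d.L v))
        (d.GA m (8 * n + s + 1) (d.L ω)) <
      η * law d.P (fun v => d.GA m (8 * n + s) (d.L v)) (d.GA m (8 * n + s) (d.L ω))}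
      then (1 : ℝ) else 0)) = ∑ s ∈ range (d.X - 16 * n), Ex d.P (fun ω =>
      (if ω ∈ {ω | law d.P (fun v => d.GA m (8 * n + s + 1) (d.L v))
        (d.GA m (8 * n + s + 1) (d.L ω)) <
      η * law d.P (fun v => d.GA m (8 * n + s) (d.L v)) (d.GA m (8 * n + s) (d.L ω))}
      then (1 : ℝ) else 0)) := by
    unfold Ex
    simp only [Finset.mul_sum]
    exact Finset.sum_comm
  rw [h2]
  have h3 : ∀ s ∈ range (d.X - 16 * n), Ex d.P (fun ω =>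
      (if ω ∈ {ω | law d.P (fun v => d.GA m (8 * n + s + 1) (d.L v))
        (d.GA m (8 * n + s + 1) (d.L ω)) <
      η * law d.P (fun v => d.GA m (8 * n + s) (d.L v)) (d.GA m (8 * n + s) (d.L ω))}
      then (1 : ℝ) else 0)) ≤ 4 * η := by
    intro s _
    rw [Ex_ind]
    have := ratio hOK.law (fun v => d.GA m (8 * n + s) (d.L v))
      (fun v => d.GA m (8 * n + s + 1) (d.L v)) (fun v => dgA d m (8 * n + s) (d.L v))
      (({0, 1} : Finset ℤ) ×ˢ ({0, 1} : Finset ℤ)) (fun v => dgA_mem d m _ _)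
      (fun v v' h => GA_nest d m h) (fun v v' h h' => GA_sub d m h h') η hη
    refine this.trans (le_of_eq ?_)
    congr 1
  refine (Finset.sum_le_sum h3).trans (le_of_eq ?_)
  rw [Finset.sum_const, card_range, nsmul_eq_mul]
  ring

/-- The mass of the near copies. -/
noncomputable def Nf (a : ℕ) (ω : d.Om) : ℝ :=
  ∑ s ∈ range (d.X - 16 * n), Pr (rk d m n s ω)
    {v | |d.yR (d.L v) - d.yR (d.L ω)| < Yk n a s}

theorem Nf_mean {A a : ℕ} {ε₈ : ℝ} (hOK : d.OK A) (hSPR : SPR d m n a ε₈) :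
    Ex d.P (Nf d m n a) ≤ ε₈ * d.X := by
  classical
  unfold SPR at hSPR
  rw [Finset.sum_Ico_eq_sum_range, show d.X - 8 * n - 8 * n = d.X - 16 * n by omega] at hSPR
  refine le_trans (le_of_eq ?_) hSPR
  have h1 : Ex d.P (Nf d m n a) = ∑ s ∈ range (d.X - 16 * n), Ex d.P (fun ω =>
      Pr (rk d m n s ω) {v | |d.yR (d.L v) - d.yR (d.L ω)| < Yk n a s}) := by
    unfold Ex Nf
    simp only [Finset.mul_sum]
    exact Finset.sum_comm
  rw [h1]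
  refine Finset.sum_congr rfl fun s _ => ?_
  rw [Pr_dblW]
  unfold Ex
  refine Finset.sum_congr rfl fun ω _ => ?_
  congr 1
  unfold rk Yk
  refine congrArg _ (Set.ext fun v => ?_)
  simp only [Set.mem_ofPred_eq]
  rw [abs_sub_comm]

open Classical in
/-- The mass of the pairs with a form which is not atomic. -/
noncomputable def Af (a k' k₁ : ℕ) (ω : d.Om) : ℝ :=
  ∑ i ∈ range n, ∑ s ∈ range (d.X - 16 * n), (if s + i ∈ Jf d J m n ω then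
    Ex (qk d i ω) (fun t => Pr (rk d m n s ω) (bad d m n a k' k₁ s ω (ch d ω t))) else 0)

theorem Af_mean {A k k₁ a k' : ℕ} {e ε₈ : ℝ} (hOK : d.OK A) (hn : 1 ≤ n) (hnX : 64 * n ≤ d.X)
    (hk : a + 8 ≤ k) (hm : ∀ l, -(4 * n : ℤ) ≤ m l) (hRow : RowA d J m n k k₁ e) (he : 0 ≤ e)
    (hW : ∀ i < n, Pr (d.Qp i) {w | (m (d.L w.1), d.T w.1, d.T w.2) ∉ gW d a} ≤ 2 * ε₈)
    (hTB : TB d n k' ε₈) :
    Ex d.P (Af d J m n a k' k₁) ≤ n * ((d.X - 16 * n : ℕ) : ℝ) * (2 * e + 3 * ε₈) := by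
  classical
  have h1 : Ex d.P (Af d J m n a k' k₁) = ∑ i ∈ range n, ∑ s ∈ range (d.X - 16 * n),
      Ex d.P (fun ω => if s + i ∈ Jf d J m n ω then
        Ex (qk d i ω) (fun t => Pr (rk d m n s ω) (bad d m n a k' k₁ s ω (ch d ω t))) else 0) := by
    unfold Ex Af
    simp only [Finset.mul_sum]
    rw [Finset.sum_comm]
    refine Finset.sum_congr rfl fun i _ => ?_
    exact Finset.sum_comm
  rw [h1]
  have h2 := Finset.sum_le_sum fun i (hi : i ∈ range n) =>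
    vert d J m n (k' := k') hOK hn hk hm hRow (mem_range.1 hi)
  refine h2.trans ?_
  have h3 := hTB 0 n (by omega) (by omega)
  rw [← Finset.range_eq_Ico] at h3
  have hX : (d.X : ℝ) ≤ 2 * ((d.X - 16 * n : ℕ) : ℝ) := by
    have : d.X ≤ 2 * (d.X - 16 * n) := by omega
    exact_mod_cast this
  have hX0 : (0 : ℝ) ≤ ((d.X - 16 * n : ℕ) : ℝ) := Nat.cast_nonneg _
  have h4 : ∀ i ∈ range n, (e * d.X + ((d.X - 16 * n : ℕ) : ℝ) *
      (Pr (d.Qp i) {w | |d.ta w| < (2 : ℝ) ^ (-((i : ℤ) + k'))} +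
        Pr (d.Qp i) {w | (m (d.L w.1), d.T w.1, d.T w.2) ∉ gW d a})) ≤
      (2 * e * ((d.X - 16 * n : ℕ) : ℝ) + ((d.X - 16 * n : ℕ) : ℝ) * (2 * ε₈)) +
      ((d.X - 16 * n : ℕ) : ℝ) * Pr (d.Qp i) {w | |d.ta w| < (2 : ℝ) ^ (-((i : ℤ) + k'))} := by
    intro i hi
    have h5 := mul_le_mul_of_nonneg_left (hW i (mem_range.1 hi)) hX0
    have h6 := mul_le_mul_of_nonneg_left hX he
    rw [mul_add]
    linarith only [h5, h6]
  refine (Finset.sum_le_sum h4).trans ?_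
  rw [Finset.sum_add_distrib, Finset.sum_const, card_range, nsmul_eq_mul, ← Finset.mul_sum]
  have h7 := mul_le_mul_of_nonneg_left h3 hX0
  push_cast at h7
  rw [sub_zero] at h7
  have h8 : (n : ℝ) * ((d.X - 16 * n : ℕ) : ℝ) * (2 * e + 3 * ε₈) =
      n * (2 * e * ((d.X - 16 * n : ℕ) : ℝ) + ((d.X - 16 * n : ℕ) : ℝ) * (2 * ε₈)) +
      ((d.X - 16 * n : ℕ) : ℝ) * (ε₈ * n) := by ring
  rw [h8]
  linarith only [h7]

/-- The slope at one base. -/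
theorem base {A h k₁ a k' N₀ : ℕ} {u η θ ν α : ℝ} (hOK : d.OK A) (hS : Siz d n h m)
    (hu : 0 < u) (hu1 : u ≤ 1) (hη : 0 < η) (hη1 : η ≤ 1) (hθ : 0 < θ)
    (hN₀ : 8 / u ≤ N₀) (hc : 2 * θ / η + ν ≤ 1 / 4 * ((u / 2) ^ 2 / 16))
    (hα : (4 * N₀ ^ 2 + 1) * (α / θ) < (u / 2) ^ 2 / 4) {ω : d.Om} (hω : 0 < d.P ω)
    (hJ : ∀ j : ℕ, (j + 2) * h ≤ d.X →
      u * h ≤ (Set.ncard {r | r ∈ J ω ∧ j * h ≤ r ∧ r < (j + 1) * h} : ℝ))
    (hNf : Nf d m n a ω ≤ ν * ((d.X - 16 * n : ℕ) : ℝ))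
    (hBf : ((Bf d m n η ω).card : ℝ) ≤ (u / 2) ^ 2 * ((d.X - 16 * n : ℕ) : ℝ) / 16)
    (hAf : Af d J m n a k' k₁ ω ≤ α * (n * ((d.X - 16 * n : ℕ) : ℝ))) :
    ∃ La : ℝ, ∀ (j : ℕ) (χ' : ℝ), j ≤ 2 * n → ∑ s ∈ range (d.X - 16 * n),
      (if s + j ∈ Jf d J m n ω then
        Pr (rk d m n s ω) (bad d m n a k' k₁ s ω χ') else 0) ≤ θ * ((d.X - 16 * n : ℕ) : ℝ) →
      |χ' - La| ≤ (14 * N₀ + 6) * hk d m a k' k₁ ω := by
  classical
  have h1 := hS.h1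
  have h2 := hS.hn
  have h3 := hS.nX
  have hml := hS.m1 (d.L ω)
  have hmu := hS.m2 (d.L ω)
  have hX' : 0 < d.X - 16 * n := by omega
  have hXr : (0 : ℝ) < ((d.X - 16 * n : ℕ) : ℝ) := by exact_mod_cast hX'
  have hn0 : 0 < n := by omega
  have hnr : (0 : ℝ) < n := by exact_mod_cast hn0
  obtain ⟨M, hM⟩ : ∃ M : ℕ, (M : ℤ) = (8 * n : ℕ) + m (d.L ω) :=
    ⟨((8 * n : ℕ) + m (d.L ω)).toNat, Int.toNat_of_nonneg (by push_cast; omega)⟩
  refine als_one (T := d.Om) (D := d.Om) n (d.X - 16 * n) N₀ (2 * n) hn0 le_rfl (by omega) (u / 2)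
    (by positivity) (by linarith only [hu1]) (by
      have : 4 / (u / 2) = 8 / u := by ring
      rw [this]
      exact hN₀) (Jf d J m n ω) ?_ ?_ (fun i => qk d i ω)
    (fun i _ => isLaw_cnd hOK.law (fun v => (d.L v, d.Ti i v)) hω) (fun s => rk d m n s ω)
    (fun s _ => isLaw_cnd hOK.law (fun v => d.GA m (8 * n + s) (d.L v)) hω)
    (fun _ t => ch d ω t) (fun v => d.yR (d.L v) - d.yR (d.L ω))
    (fun v => d.beR (d.L v) - d.beR (d.L ω)) (Yk n a) (fun s => by unfold Yk; positivity) ?_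
    (hk d m a k' k₁ ω) (by unfold hk; positivity) (Bf d m n η ω) η hη hη1 ?_ hBf
    (α * (n * ((d.X - 16 * n : ℕ) : ℝ))) (ν * ((d.X - 16 * n : ℕ) : ℝ)) θ hθ hAf hNf ?_ ?_
  · intro j hj
    obtain ⟨f1, f2, f3⟩ := mem_filter.1 hj
    exact ⟨f2, mem_range.1 f1⟩
  · intro a' b' ha' hab hb'
    have h4 := dens (S := J ω) (X := d.X) hu.le h1 hJ (M + a') (M + b') (by omega) (by omega)
    have h5 : ((M + b' : ℕ) : ℝ) - ((M + a' : ℕ) : ℝ) = (b' : ℝ) - a' := by push_cast; ring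
    rw [h5] at h4
    refine h4.trans ?_
    have h6 : ((Finset.Ico (M + a') (M + b')).filter (· ∈ J ω)).card ≤
        ((Jf d J m n ω).filter (fun j => a' ≤ j ∧ j < b')).card := by
      refine Finset.card_le_card_of_injOn (fun r => r - M) ?_ ?_
      · intro r hr
        obtain ⟨g1, g2⟩ := mem_filter.1 hr
        have g3 := mem_Ico.1 g1
        refine mem_filter.2 ⟨mem_filter.2 ⟨mem_range.2 (show r - M < _ by omega),
          show 2 * n ≤ r - M by omega, ?_⟩, show a' ≤ r - M by omega, show r - M < b' by omega⟩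
        have g4 : (((8 * n + (r - M) : ℕ) : ℤ) + m (d.L ω)).toNat = r := by
          have : ((8 * n + (r - M) : ℕ) : ℤ) + m (d.L ω) = (r : ℤ) := by
            push_cast [show M ≤ r by omega] at hM ⊢
            omega
          rw [this]
          rfl
        show (((8 * n + (r - M) : ℕ) : ℤ) + m (d.L ω)).toNat ∈ J ω
        rw [g4]
        exact g2
      · intro r hr r' hr' hrr
        have g3 := mem_Ico.1 (mem_filter.1 hr).1
        have g4 := mem_Ico.1 (mem_filter.1 hr').1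
        have g5 : r - M = r' - M := hrr
        omega
    exact_mod_cast h6
  · intro s
    unfold Yk
    rw [← zpow_one_add₀ (by norm_num)]
    refine zpow_le_zpow_right₀ (by norm_num) ?_
    push_cast
    linarith only
  · intro s hs hsB v
    have h4 : η * law d.P (fun v => d.GA m (8 * n + s) (d.L v)) (d.GA m (8 * n + s) (d.L ω)) ≤
        law d.P (fun v => d.GA m (8 * n + s + 1) (d.L v)) (d.GA m (8 * n + s + 1) (d.L ω)) := by
      by_contra hcon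
      exact hsB (mem_filter.2 ⟨mem_range.2 (by omega), not_le.1 hcon⟩)
    have hl0 : 0 < law d.P (fun v => d.GA m (8 * n + s) (d.L v)) (d.GA m (8 * n + s) (d.L ω)) :=
      law_pos hOK.law.nonneg (fun v => d.GA m (8 * n + s) (d.L v)) hω
    have hl1 : 0 < law d.P (fun v => d.GA m (8 * n + s + 1) (d.L v))
        (d.GA m (8 * n + s + 1) (d.L ω)) :=
      law_pos hOK.law.nonneg (fun v => d.GA m (8 * n + s + 1) (d.L v)) hω
    show η * cond d.P (fun v => d.GA m (8 * n + s + 1) (d.L v))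
      (d.GA m (8 * n + s + 1) (d.L ω)) v ≤ cond d.P (fun v => d.GA m (8 * n + s) (d.L v))
      (d.GA m (8 * n + s) (d.L ω)) v
    unfold Pool.Agent.H49.Ent.cond
    by_cases h5 : d.GA m (8 * n + s + 1) (d.L v) = d.GA m (8 * n + s + 1) (d.L ω)
    · rw [if_pos h5, if_pos (GA_nest d m h5), mul_div_assoc', div_le_div_iff₀ hl1 hl0]
      have := mul_le_mul_of_nonneg_left h4 (hOK.law.nonneg v)
      linarith only [this]
    · rw [if_neg h5, mul_zero]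
      split_ifs
      · exact div_nonneg (hOK.law.nonneg v) hl0.le
      · exact le_rfl
  · have := mul_le_mul_of_nonneg_right hc hXr.le
    have e1 : 1 / 4 * ((u / 2) ^ 2 / 16) * ((d.X - 16 * n : ℕ) : ℝ) =
        1 / 4 * ((u / 2) ^ 2 / 16 * ((d.X - 16 * n : ℕ) : ℝ)) := by ring
    have e2 : (2 * θ / η + ν) * ((d.X - 16 * n : ℕ) : ℝ) =
        2 * θ / η * ((d.X - 16 * n : ℕ) : ℝ) + ν * ((d.X - 16 * n : ℕ) : ℝ) := by ring
    linarith only [this]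
  · have e1 : α * (n * ((d.X - 16 * n : ℕ) : ℝ)) / (θ * ((d.X - 16 * n : ℕ) : ℝ)) =
        (α / θ) * n := by field_simp
    rw [e1, ← mul_assoc]
    exact mul_lt_mul_of_pos_right hα hnr

/-- All conditions at once. -/
theorem core {A h k k₁ a k' k₅ N₀ : ℕ} {e u ε₈ η θ ν α : ℝ} (hOK : d.OK A) (hS : Siz d n h m)
    (hkk : a + 8 ≤ k) (hk₁ : a + k' + k₅ + 14 * N₀ + 6 ≤ k₁) (hu : 0 < u) (hu1 : u ≤ 1)
    (he : 0 ≤ e) (hRow : RowA d J m n k k₁ e) (hJ1 : J1 d J h u ε₈) (hSPR : SPR d m n a ε₈)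
    (hNLC : NLC d m n a ε₈) (hTA : TA d n ε₈) (hTB : TB d n k' ε₈)
    (hη : 0 < η) (hη1 : η ≤ 1) (hθ : 0 < θ) (hν : 0 < ν) (hα0 : 0 < α)
    (hN₀ : 8 / u ≤ N₀) (hc : 2 * θ / η + ν ≤ 1 / 4 * ((u / 2) ^ 2 / 16))
    (hα : (4 * N₀ ^ 2 + 1) * (α / θ) < (u / 2) ^ 2 / 4) :
    ∃ Λ : d.Om → ℝ, AGR d m n k₅ Λ (ε₈ + 2 * ε₈ / ν + 64 * η / (u / 2) ^ 2 +
      (2 * e + 3 * ε₈) / α + 2 * e / θ + 2 * ε₈) := by
  classical
  have h1 := hS.h1
  have h2 := hS.hn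
  have h3 := hS.nX
  have hX' : 0 < d.X - 16 * n := by omega
  have hXr : (0 : ℝ) < ((d.X - 16 * n : ℕ) : ℝ) := by exact_mod_cast hX'
  have hn0 : 0 < n := by omega
  have hnr : (0 : ℝ) < n := by exact_mod_cast hn0
  have hX2 : (d.X : ℝ) ≤ 2 * ((d.X - 16 * n : ℕ) : ℝ) := by
    have : d.X ≤ 2 * (d.X - 16 * n) := by omega
    exact_mod_cast this
  have hP0 := hOK.law.nonneg
  have hε₈ : 0 ≤ ε₈ := le_trans (Pool.KAF.Pr_nonneg hP0 _) hJ1
  -- the pairs with inadmissible times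
  have hW : ∀ i < n, Pr (d.Qp i) {w | (m (d.L w.1), d.T w.1, d.T w.2) ∉ gW d a ∨
      ¬ sc (d.ta w) ≤ 2 * n} ≤ 2 * ε₈ := by
    intro i hi
    have g1 := hTA i (i + n / 4) le_rfl (by omega)
    have g2 := hNLC i (by omega)
    refine (Pr_or (Qp_law d hOK i).nonneg (B := {w | |d.ta w| < (2 : ℝ) ^ (-((i + n / 4 : ℕ) : ℤ))})
      (C := {w | (2 : ℝ) ^ (-(4 * n : ℤ)) ≤ |d.ta w| ∧
        (2 : ℝ) ^ ((a : ℤ) + 4 - m (d.L w.1)) * |d.ta w| < |d.sg w|}) ?_).trans (by linarith only [g1, g2])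
    intro w hw hw'
    by_cases g3 : |d.ta w| < (2 : ℝ) ^ (-((i + n / 4 : ℕ) : ℤ))
    · exact Or.inl g3
    refine Or.inr ?_
    rw [not_lt] at g3
    have g4 : (2 : ℝ) ^ (-(4 * n : ℤ)) ≤ |d.ta w| := by
      refine le_trans (zpow_le_zpow_right₀ (by norm_num) ?_) g3
      push_cast
      omega
    refine ⟨g4, ?_⟩
    have g5 : d.ta w ≠ 0 := by
      intro h0
      rw [h0, abs_zero] at g4
      have : (0 : ℝ) < (2 : ℝ) ^ (-(4 * n : ℤ)) := by positivity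
      linarith only [g4, this]
    have g6 := sc_leW g3
    rcases hw' with g7 | g7
    · by_contra g8
      rw [not_lt] at g8
      exact g7 ⟨g5, g8⟩
    · exact absurd (le_trans g6 (by push_cast; omega)) g7
  have hW1 : ∀ i < n, Pr (d.Qp i) {w | (m (d.L w.1), d.T w.1, d.T w.2) ∉ gW d a} ≤ 2 * ε₈ :=
    fun i hi => le_trans (Pool.KAF.Pr_mono (Qp_law d hOK i).nonneg fun w _ hw => Or.inl hw)
      (hW i hi)
  -- the good bases
  set G1 : Set d.Om := {ω | ∃ j : ℕ, (j + 2) * h ≤ d.X ∧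
    (Set.ncard {r | r ∈ J ω ∧ j * h ≤ r ∧ r < (j + 1) * h} : ℝ) < u * h} with hG1
  set G2 : Set d.Om := {ω | ν * ((d.X - 16 * n : ℕ) : ℝ) < Nf d m n a ω} with hG2
  set G3 : Set d.Om := {ω | (u / 2) ^ 2 * ((d.X - 16 * n : ℕ) : ℝ) / 16 <
    ((Bf d m n η ω).card : ℝ)} with hG3
  set G4 : Set d.Om := {ω | α * (n * ((d.X - 16 * n : ℕ) : ℝ)) < Af d J m n a k' k₁ ω} with hG4
  have p1 : Pr d.P G1 ≤ ε₈ := hJ1
  have p2 : Pr d.P G2 ≤ 2 * ε₈ / ν := by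
    refine (Pr_gt hP0 _ (fun ω hω => Finset.sum_nonneg fun s _ => Pool.KAF.Pr_nonneg
      (isLaw_cnd hOK.law (fun v => d.GA m (8 * n + s) (d.L v)) hω).nonneg _)
      (mul_pos hν hXr) (Nf_mean d m n hOK hSPR)).trans ?_
    rw [div_le_div_iff₀ (mul_pos hν hXr) hν]
    have := mul_le_mul_of_nonneg_left hX2 hε₈
    have := mul_le_mul_of_nonneg_right this hν.le
    linarith only [this]
  have p3 : Pr d.P G3 ≤ 64 * η / (u / 2) ^ 2 := by
    refine (Pr_gt hP0 _ (fun ω hω => Nat.cast_nonneg _) (by positivity)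
      (Bf_mean d m n hOK hη.le)).trans (le_of_eq ?_)
    field_simp
    ring
  have p4 : Pr d.P G4 ≤ (2 * e + 3 * ε₈) / α := by
    refine (Pr_gt hP0 _ (fun ω hω => Finset.sum_nonneg fun i _ => Finset.sum_nonneg fun s _ => ?_)
      (mul_pos hα0 (mul_pos hnr hXr)) (Af_mean d J m n hOK (by omega) h3 hkk hS.m1 hRow he hW1
        hTB)).trans (le_of_eq ?_)
    · split_ifs
      · exact Ex_nonneg (isLaw_cnd hOK.law (fun v => (d.L v, d.Ti i v)) hω).nonneg fun t _ =>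
          Pool.KAF.Pr_nonneg (isLaw_cnd hOK.law (fun v => d.GA m (8 * n + s) (d.L v)) hω).nonneg _
      · exact le_rfl
    · field_simp
  -- the slope
  have hex : ∀ ω, ∃ La : ℝ, 0 < d.P ω → ω ∉ G1 → ω ∉ G2 → ω ∉ G3 → ω ∉ G4 →
      ∀ (j : ℕ) (χ' : ℝ), j ≤ 2 * n → ∑ s ∈ range (d.X - 16 * n),
      (if s + j ∈ Jf d J m n ω then
        Pr (rk d m n s ω) (bad d m n a k' k₁ s ω χ') else 0) ≤ θ * ((d.X - 16 * n : ℕ) : ℝ) →
      |χ' - La| ≤ (14 * N₀ + 6) * hk d m a k' k₁ ω := by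
    intro ω
    by_cases hg : 0 < d.P ω ∧ ω ∉ G1 ∧ ω ∉ G2 ∧ ω ∉ G3 ∧ ω ∉ G4
    · obtain ⟨g0, g1, g2, g3, g4⟩ := hg
      obtain ⟨La, hLa⟩ := base d J m n hOK hS hu hu1 hη hη1 hθ hN₀ hc hα g0 (by
        intro j hj
        by_contra hcon
        exact g1 ⟨j, hj, not_le.1 hcon⟩) (not_lt.1 g2) (not_lt.1 g3) (k₁ := k₁) (k' := k')
        (not_lt.1 g4)
      exact ⟨La, fun _ _ _ _ _ => hLa⟩
    · exact ⟨0, fun g0 g1 g2 g3 g4 => absurd ⟨g0, g1, g2, g3, g4⟩ hg⟩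
  choose Λ hΛ using hex
  refine ⟨Λ, fun i hi => ?_⟩
  have hQ := Qp_law d hOK i
  -- the mass at the effective scale
  have p5 : Pr (d.Qp i) {w | θ * ((d.X - 16 * n : ℕ) : ℝ) < cw d J m n a k' k₁ w} ≤
      2 * e / θ := by
    refine (Pr_gt hQ.nonneg _ (fun w hw => ?_) (mul_pos hθ hXr)
      (eff d J m n hOK (by omega) hkk hS.m1 hRow hi)).trans ?_
    · unfold cw
      split_ifs
      · refine Finset.sum_nonneg fun s _ => ?_
        split_ifs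
        · exact Pool.KAF.Pr_nonneg (fun v => cond_nonneg hP0 _ _ v) _
        · exact le_rfl
      · exact le_rfl
    · rw [div_le_div_iff₀ (mul_pos hθ hXr) hθ]
      have := mul_le_mul_of_nonneg_left hX2 he
      have := mul_le_mul_of_nonneg_right this hθ.le
      linarith only [this]
  have p6 := hW i hi
  have q1 : Pr (d.Qp i) {w | w.1 ∈ G1} ≤ ε₈ := by
    have := Pr_dbl_fst hOK.law (fun ω => (d.L ω, d.Ti i ω)) G1
    exact this.le.trans p1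
  have q2 : Pr (d.Qp i) {w | w.1 ∈ G2} ≤ 2 * ε₈ / ν := by
    have := Pr_dbl_fst hOK.law (fun ω => (d.L ω, d.Ti i ω)) G2
    exact this.le.trans p2
  have q3 : Pr (d.Qp i) {w | w.1 ∈ G3} ≤ 64 * η / (u / 2) ^ 2 := by
    have := Pr_dbl_fst hOK.law (fun ω => (d.L ω, d.Ti i ω)) G3
    exact this.le.trans p3
  have q4 : Pr (d.Qp i) {w | w.1 ∈ G4} ≤ (2 * e + 3 * ε₈) / α := by
    have := Pr_dbl_fst hOK.law (fun ω => (d.L ω, d.Ti i ω)) G4
    exact this.le.trans p4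
  have r1 := Pr_or hQ.nonneg (A := {w | w.1 ∈ G1 ∨ w.1 ∈ G2}) (B := {w | w.1 ∈ G1})
    (C := {w | w.1 ∈ G2}) fun w _ hw => hw
  have r2 := Pr_or hQ.nonneg (A := {w | (w.1 ∈ G1 ∨ w.1 ∈ G2) ∨ w.1 ∈ G3})
    (B := {w | w.1 ∈ G1 ∨ w.1 ∈ G2}) (C := {w | w.1 ∈ G3}) fun w _ hw => hw
  have r3 := Pr_or hQ.nonneg (A := {w | ((w.1 ∈ G1 ∨ w.1 ∈ G2) ∨ w.1 ∈ G3) ∨ w.1 ∈ G4})
    (B := {w | (w.1 ∈ G1 ∨ w.1 ∈ G2) ∨ w.1 ∈ G3}) (C := {w | w.1 ∈ G4}) fun w _ hw => hw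
  have r4 := Pr_or hQ.nonneg (A := {w | (((w.1 ∈ G1 ∨ w.1 ∈ G2) ∨ w.1 ∈ G3) ∨ w.1 ∈ G4) ∨
      θ * ((d.X - 16 * n : ℕ) : ℝ) < cw d J m n a k' k₁ w})
    (B := {w | ((w.1 ∈ G1 ∨ w.1 ∈ G2) ∨ w.1 ∈ G3) ∨ w.1 ∈ G4})
    (C := {w | θ * ((d.X - 16 * n : ℕ) : ℝ) < cw d J m n a k' k₁ w}) fun w _ hw => hw
  have r5 := Pr_or hQ.nonneg (A := {w | (2 : ℝ) ^ (-(m (d.L w.1) + k₅)) * |d.ta w| <
      |d.sg w - Λ w.1 * d.ta w|})
    (B := {w | (((w.1 ∈ G1 ∨ w.1 ∈ G2) ∨ w.1 ∈ G3) ∨ w.1 ∈ G4) ∨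
      θ * ((d.X - 16 * n : ℕ) : ℝ) < cw d J m n a k' k₁ w})
    (C := {w | (m (d.L w.1), d.T w.1, d.T w.2) ∉ gW d a ∨ ¬ sc (d.ta w) ≤ 2 * n}) (by
    intro w hw hw'
    by_contra hcon
    rw [not_or] at hcon
    obtain ⟨c1, c2⟩ := hcon
    simp only [Set.mem_ofPred_eq, not_or, not_not] at c1 c2
    obtain ⟨⟨⟨⟨b1, b2⟩, b3⟩, b4⟩, b5⟩ := c1
    obtain ⟨b6, b7⟩ := c2
    rw [not_lt] at b5
    unfold cw at b5
    rw [if_pos ⟨b6, b7⟩] at b5
    have hP1 := (Qp_pos d hOK hw).1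
    have b8 := hΛ w.1 hP1 b1 b2 b3 b4 (sc (d.ta w)).toNat (ch d w.1 w.2) (by omega) b5
    have b9 : d.ta w ≠ 0 := b6.1
    have b10 : (14 * (N₀ : ℝ) + 6) * hk d m a k' k₁ w.1 ≤ (2 : ℝ) ^ (-(m (d.L w.1) + k₅)) := by
      have c3 : (14 * (N₀ : ℝ) + 6) ≤ (2 : ℝ) ^ (((14 * N₀ + 6 : ℕ) : ℤ)) := by
        have : 14 * N₀ + 6 < 2 ^ (14 * N₀ + 6) := Nat.lt_two_pow_self
        have c4 : ((14 * N₀ + 6 : ℕ) : ℝ) ≤ ((2 ^ (14 * N₀ + 6) : ℕ) : ℝ) := by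
          exact_mod_cast this.le
        push_cast at c4
        rw [zpow_natCast]
        exact c4
      unfold hk
      refine (mul_le_mul_of_nonneg_right c3 (by positivity)).trans ?_
      rw [← zpow_add₀ (by norm_num)]
      refine zpow_le_zpow_right₀ (by norm_num) ?_
      have : ((a + k' + k₅ + 14 * N₀ + 6 : ℕ) : ℤ) ≤ k₁ := by exact_mod_cast hk₁
      push_cast at this ⊢
      linarith only [hk₁]
    have b11 : d.sg w - Λ w.1 * d.ta w = (ch d w.1 w.2 - Λ w.1) * d.ta w := by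
      unfold ch
      have : d.sg (w.1, w.2) / d.ta (w.1, w.2) = d.sg w / d.ta w := rfl
      rw [this]
      field_simp
    have b12 : |d.sg w - Λ w.1 * d.ta w| ≤ (2 : ℝ) ^ (-(m (d.L w.1) + k₅)) * |d.ta w| := by
      rw [b11, abs_mul]
      exact mul_le_mul_of_nonneg_right (b8.trans b10) (abs_nonneg _)
    exact absurd hw' (not_lt.2 b12))
  linarith only [p5, p6, q1, q2, q3, q4, r1, r2, r3, r4, r5]

end ALS

/-- **Row ALS.** -/
theorem als_thm : ALSStmt := by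
  intro u ε₉ hu hu1 hε₉
  obtain ⟨ε, hε⟩ : ∃ ε, ε = min ε₉ 1 := ⟨_, rfl⟩
  have hε0 : 0 < ε := by rw [hε]; positivity
  have hε1 : ε ≤ 1 := by rw [hε]; exact min_le_right _ _
  have hε9 : ε ≤ ε₉ := by rw [hε]; exact min_le_left _ _
  obtain ⟨N₀, hN₀⟩ : ∃ N₀ : ℕ, N₀ = ⌈8 / u⌉₊ := ⟨_, rfl⟩
  have hN : 8 / u ≤ N₀ := by rw [hN₀]; exact Nat.le_ceil _
  obtain ⟨η, hη⟩ : ∃ η, η = ε * (u / 2) ^ 2 / 640 := ⟨_, rfl⟩
  obtain ⟨θ, hθ⟩ : ∃ θ, θ = η * (u / 2) ^ 2 / 256 := ⟨_, rfl⟩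
  obtain ⟨ν, hν⟩ : ∃ ν, ν = (u / 2) ^ 2 / 128 := ⟨_, rfl⟩
  obtain ⟨α, hα⟩ : ∃ α, α = θ * (u / 2) ^ 2 / (8 * (4 * N₀ ^ 2 + 1)) := ⟨_, rfl⟩
  have hu2 : (u / 2) ^ 2 ≤ 1 := by nlinarith only [hu1, hu]
  have hu20 : 0 < (u / 2) ^ 2 := by positivity
  have hη0 : 0 < η := by rw [hη]; positivity
  have hη1 : η ≤ 1 := by
    rw [hη, div_le_one (by norm_num)]
    have : ε * (u / 2) ^ 2 ≤ 1 * 1 := mul_le_mul hε1 hu2 hu20.le zero_le_one
    linarith only [this]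
  have hθ0 : 0 < θ := by rw [hθ]; positivity
  have hθ1 : θ ≤ 1 := by
    rw [hθ, div_le_one (by norm_num)]
    have : η * (u / 2) ^ 2 ≤ 1 * 1 := mul_le_mul hη1 hu2 hu20.le zero_le_one
    linarith only [this]
  have hν0 : 0 < ν := by rw [hν]; positivity
  have hν1 : ν ≤ 1 := by rw [hν, div_le_one (by norm_num)]; linarith only [hu2]
  have hα0 : 0 < α := by rw [hα]; positivity
  have hα1 : α ≤ 1 := by
    rw [hα, div_le_one (by positivity)]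
    have h1 : θ * (u / 2) ^ 2 ≤ 1 * 1 := mul_le_mul hθ1 hu2 hu20.le zero_le_one
    have h2 : (0 : ℝ) ≤ (N₀ : ℝ) ^ 2 := by positivity
    linarith only [h1, h2]
  refine ⟨ε * α * ν / 40, by positivity, ?_⟩
  intro A a k' k₅
  refine ⟨a + k' + k₅ + 14 * N₀ + 6, 1, ε * α * θ / 40, by positivity, ?_⟩
  intro d J m n h k k₁ e hOK hS hn₀ hk hk₁ he hRow hJ1 hSPR hNLC hTA hTB
  have h1 := hS.h1
  have h2 := hS.hn
  have h3 := hS.nX
  have he0 : 0 ≤ e := by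
    have g1 := hRow 0 (by omega) (fun _ _ _ => 0) ∅ (fun w v s _ _ hW => absurd hW (by simp))
    have g2 : (0 : ℝ) < d.X := by
      have : 0 < d.X := by omega
      exact_mod_cast this
    by_contra hcon
    push Not at hcon
    have g3 := mul_neg_of_neg_of_pos hcon g2
    have g4 : (0 : ℝ) ≤ ∑ s ∈ Finset.Ico (8 * n) (d.X - 8 * n), Ex (d.Qp 0) (Set.indicator
      {w | (m (d.L w.1), d.T w.1, d.T w.2) ∈ (∅ : Set (ℤ × d.Tau × d.Tau)) ∧
        0 ≤ (s : ℤ) + 0 ∧ ((s : ℤ) + 0).toNat ∈ J w.1}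
      (fun w => Pr (cond d.P (fun v => d.GA m s (d.L v)) (d.GA m s (d.L w.1)))
        {v | (2 : ℝ) ^ (-((s : ℤ) + 0 + k₁)) ≤
          |d.ZR (d.T w.1) (d.T w.2) (d.L w.1) - d.ZR (d.T w.1) (d.T w.2) (d.L v)|})) :=
      Finset.sum_nonneg fun s _ => Ex_nonneg (ALS.Qp_law d hOK 0).nonneg fun w _ =>
        Set.indicator_nonneg (fun w _ => Pool.KAF.Pr_nonneg
          (fun v => cond_nonneg hOK.law.nonneg _ _ v) _) w
    linarith only [g1, g3, g4]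
  obtain ⟨Λ, hΛ⟩ := ALS.core d J m n (ε₈ := ε * α * ν / 40) (η := η) (θ := θ) (ν := ν) (α := α)
    hOK hS hk hk₁ hu hu1 he0 hRow hJ1 hSPR hNLC hTA hTB hη0 hη1 hθ0 hν0 hα0 hN (by
      have e1 : 2 * θ / η = (u / 2) ^ 2 / 128 := by
        rw [hθ]
        field_simp
        ring
      rw [e1, hν]
      linarith only) (by
      have e1 : (4 * (N₀ : ℝ) ^ 2 + 1) * (α / θ) = (u / 2) ^ 2 / 8 := by
        rw [hα]
        field_simp
      rw [e1]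
      linarith only [hν, hν0])
  refine ⟨Λ, fun i hi => (hΛ i hi).trans ?_⟩
  refine le_trans ?_ hε9
  have hαν : α * ν ≤ 1 := by
    have := mul_le_mul hα1 hν1 hν0.le zero_le_one
    linarith only [this]
  have g1 : ε * α * ν / 40 ≤ ε / 40 := by
    have := mul_le_mul_of_nonneg_left hαν hε0.le
    linarith only [this]
  have g2 : 2 * (ε * α * ν / 40) / ν ≤ ε / 20 := by
    have e1 : 2 * (ε * α * ν / 40) / ν = ε * α / 20 := by field_simp; ring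
    rw [e1]
    have := mul_le_mul_of_nonneg_left hα1 hε0.le
    linarith only [this]
  have g3 : 64 * η / (u / 2) ^ 2 = ε / 10 := by
    rw [hη]
    field_simp
    ring
  have g4 : (2 * e + 3 * (ε * α * ν / 40)) / α ≤ ε / 20 + 3 * ε / 40 := by
    rw [div_le_iff₀ hα0]
    have e1 := mul_le_mul_of_nonneg_left hθ1 (mul_pos hε0 hα0).le
    have e2 := mul_le_mul_of_nonneg_left hν1 (mul_pos hε0 hα0).le
    have e3 : (ε / 20 + 3 * ε / 40) * α = 2 * (ε * α * 1 / 40) + 3 * (ε * α * 1 / 40) := by ring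
    rw [e3]
    linarith only [he, e1, e2]
  have g5 : 2 * e / θ ≤ ε / 20 := by
    rw [div_le_iff₀ hθ0]
    have e1 := mul_le_mul_of_nonneg_right (mul_le_mul_of_nonneg_left hα1 hε0.le) hθ0.le
    linarith only [he, e1]
  linarith only [hε0, g1, g2, g3, g4, g5]

end Pool.OC
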