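import Pool.Agent.H62.OC.Gra
import Pool.Agent.H70.OC.Tel

/-!
# OC: agreement of the atomic slopes at all scales (3.3), (3.4)

At a fixed base the partners at the scale `i` have the law `q i` and the slopes `χ i`; the copies
in the cell number `s` have the law `r s` and the differences `dy`, `db`. If the form
`db - χ dy` is atomic for typical `(i, s)` with `s + i` in the set `J` of nonfull rows, then all
slopes agree, at all but few scales.
-/

set_option autoImplicit false

namespace Pool.OC

open Finset Real
open Pool.Agent.H49.Ent Pool.Agent.H32.Dense Pool.STK Pool.KAF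

section

variable {T T' D : Type} [Fintype T] [Fintype T'] [Fintype D]

theorem Ex_Pr (q : T → ℝ) (r : D → ℝ) (E : T → Set D) [∀ t, DecidablePred (· ∈ E t)] :
    Ex q (fun t => Pr r (E t)) = ∑ d, r d * ∑ t, q t * (if d ∈ E t then (1 : ℝ) else 0) := by
  unfold Ex
  simp only [Pool.KAF.Pr_eq, Finset.mul_sum]
  rw [Finset.sum_comm]
  refine Finset.sum_congr rfl fun d _ => Finset.sum_congr rfl fun t _ => ?_
  split_ifs <;> ring

/-- Two slopes which are both atomic in the same cell are near. -/
theorem pair_le {q : T → ℝ} {q' : T' → ℝ} {r : D → ℝ} (hq : IsLaw q) (hq' : IsLaw q')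
    (hr : IsLaw r) (χ : T → ℝ) (χ' : T' → ℝ) (A : T → Set D) (A' : T' → Set D) (N : Set D)
    (H : ℝ) (h : ∀ t t' d, d ∉ A t → d ∉ A' t' → d ∉ N → |χ t - χ' t'| ≤ H) :
    Ex q (fun t => Pr q' {t' | H < |χ t - χ' t'|}) ≤
      Ex q (fun t => Pr r (A t)) + Ex q' (fun t => Pr r (A' t)) + Pr r N := by
  classical
  have e1 : Ex q (fun t => Pr q' {t' | H < |χ t - χ' t'|}) =
      ∑ d, r d * ∑ t, ∑ t', q t * (q' t' * (if H < |χ t - χ' t'| then (1 : ℝ) else 0)) := by
    rw [← Finset.sum_mul, hr.sum_one, one_mul]
    unfold Ex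
    refine Finset.sum_congr rfl fun t _ => ?_
    show q t * Pr q' {t' | H < |χ t - χ' t'|} = _
    rw [Pool.KAF.Pr_eq, Finset.mul_sum]
    refine Finset.sum_congr rfl fun t' _ => ?_
    by_cases hd : H < |χ t - χ' t'|
    · rw [if_pos (show t' ∈ {t' | H < |χ t - χ' t'|} from hd), if_pos hd, mul_one]
    · rw [if_neg (show t' ∉ {t' | H < |χ t - χ' t'|} from hd), if_neg hd, mul_zero,
        mul_zero, mul_zero]
  have e2 : Ex q (fun t => Pr r (A t)) =
      ∑ d, r d * ∑ t, ∑ t', q t * (q' t' * (if d ∈ A t then (1 : ℝ) else 0)) := by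
    rw [Ex_Pr]
    refine Finset.sum_congr rfl fun d _ => ?_
    congr 1
    refine Finset.sum_congr rfl fun t _ => ?_
    rw [← Finset.mul_sum, ← Finset.sum_mul, hq'.sum_one, one_mul]
  have e3 : Ex q' (fun t => Pr r (A' t)) =
      ∑ d, r d * ∑ t, ∑ t', q t * (q' t' * (if d ∈ A' t' then (1 : ℝ) else 0)) := by
    rw [Ex_Pr]
    refine Finset.sum_congr rfl fun d _ => ?_
    congr 1
    rw [Finset.sum_comm]
    refine Finset.sum_congr rfl fun t _ => ?_
    rw [← Finset.sum_mul, hq.sum_one, one_mul]
  have e4 : Pr r N =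
      ∑ d, r d * ∑ t, ∑ t', q t * (q' t' * (if d ∈ N then (1 : ℝ) else 0)) := by
    rw [Pool.KAF.Pr_eq]
    refine Finset.sum_congr rfl fun d _ => ?_
    have : ∑ t, ∑ t', q t * (q' t' * (if d ∈ N then (1 : ℝ) else 0)) =
        (if d ∈ N then (1 : ℝ) else 0) := by
      simp only [← Finset.mul_sum, ← Finset.sum_mul]
      rw [hq.sum_one, hq'.sum_one, one_mul, one_mul]
    rw [this]
    split_ifs <;> ring
  exact by
   rw [e1, e2, e3, e4, ← Finset.sum_add_distrib, ← Finset.sum_add_distrib]
   refine Finset.sum_le_sum fun d _ => ?_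
   rw [← mul_add, ← mul_add]
   refine mul_le_mul_of_nonneg_left ?_ (hr.nonneg d)
   rw [← Finset.sum_add_distrib, ← Finset.sum_add_distrib]
   refine Finset.sum_le_sum fun t _ => ?_
   rw [← Finset.sum_add_distrib, ← Finset.sum_add_distrib]
   refine Finset.sum_le_sum fun t' _ => ?_
   rw [← mul_add, ← mul_add, ← mul_add, ← mul_add]
   refine mul_le_mul_of_nonneg_left ?_ (hq.nonneg t)
   refine mul_le_mul_of_nonneg_left ?_ (hq'.nonneg t')
   by_cases h1 : d ∈ A t
   · rw [if_pos h1]
     split_ifs <;> norm_num
   by_cases h2 : d ∈ A' t'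
   · rw [if_pos h2]
     split_ifs <;> norm_num
   by_cases h3 : d ∈ N
   · rw [if_pos h3]
     split_ifs <;> norm_num
   rw [if_neg (not_lt.2 (h t t' d h1 h2 h3))]
   split_ifs <;> norm_num

/-- A centre of the slopes. -/
theorem exists_center {q : T → ℝ} (hq : IsLaw q) (χ : T → ℝ) (H δ : ℝ)
    (h : Ex q (fun t => Pr q {t' | H < |χ t - χ t'|}) ≤ δ) :
    ∃ a, Pr q {t' | H < |χ t' - a|} ≤ δ := by
  classical
  by_contra hcon
  push Not at hcon
  have h1 : δ < Ex q (fun t => Pr q {t' | H < |χ t - χ t'|}) := by
    have h2 : Ex q (fun _ => δ) = δ := Ex_const hq.sum_one δ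
    rw [← h2]
    unfold Ex
    have hex : ∃ t, 0 < q t := by
      by_contra hc
      push Not at hc
      have : ∑ t, q t ≤ 0 := Finset.sum_nonpos fun t _ => hc t
      rw [hq.sum_one] at this
      linarith
    obtain ⟨t₀, ht₀⟩ := hex
    refine Finset.sum_lt_sum (fun t _ => ?_) ⟨t₀, mem_univ _, ?_⟩
    · refine mul_le_mul_of_nonneg_left ?_ (hq.nonneg t)
      have h3 := hcon (χ t)
      simp only [abs_sub_comm (χ t)]
      exact h3.le
    · refine mul_lt_mul_of_pos_left ?_ ht₀
      have h3 := hcon (χ t₀)
      simp only [abs_sub_comm (χ t₀)]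
      exact h3
  linarith

/-- Near slopes have near centres. -/
theorem center_close {q : T → ℝ} {q' : T' → ℝ} (hq : IsLaw q) (hq' : IsLaw q') (χ : T → ℝ)
    (χ' : T' → ℝ) (a a' H H' δ : ℝ) (hδ : 3 * δ < 1)
    (h : Ex q (fun t => Pr q' {t' | H < |χ t - χ' t'|}) ≤ δ)
    (h1 : Pr q {t | H' < |χ t - a|} ≤ δ) (h2 : Pr q' {t | H' < |χ' t - a'|} ≤ δ) :
    |a - a'| ≤ H + 2 * H' := by
  classical
  by_contra hcon
  push Not at hcon
  have e0 : (1 : ℝ) = ∑ t, ∑ t', q t * q' t' := by
    simp only [← Finset.mul_sum, hq'.sum_one, hq.sum_one, mul_one]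
  have e1 : Ex q (fun t => Pr q' {t' | H < |χ t - χ' t'|}) =
      ∑ t, ∑ t', q t * (q' t' * (if H < |χ t - χ' t'| then (1 : ℝ) else 0)) := by
    unfold Ex
    refine Finset.sum_congr rfl fun t _ => ?_
    show q t * Pr q' {t' | H < |χ t - χ' t'|} = _
    rw [Pool.KAF.Pr_eq, Finset.mul_sum]
    refine Finset.sum_congr rfl fun t' _ => ?_
    by_cases hd : H < |χ t - χ' t'|
    · rw [if_pos (show t' ∈ {t' | H < |χ t - χ' t'|} from hd), if_pos hd, mul_one]
    · rw [if_neg (show t' ∉ {t' | H < |χ t - χ' t'|} from hd), if_neg hd, mul_zero,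
        mul_zero, mul_zero]
  have e2 : Pr q {t | H' < |χ t - a|} =
      ∑ t, ∑ t', q t * (q' t' * (if H' < |χ t - a| then (1 : ℝ) else 0)) := by
    rw [Pool.KAF.Pr_eq]
    refine Finset.sum_congr rfl fun t _ => ?_
    rw [← Finset.mul_sum, ← Finset.sum_mul, hq'.sum_one, one_mul]
    by_cases hd : H' < |χ t - a|
    · rw [if_pos (show t ∈ {t | H' < |χ t - a|} from hd), if_pos hd, mul_one]
    · rw [if_neg (show t ∉ {t | H' < |χ t - a|} from hd), if_neg hd, mul_zero]
  have e3 : Pr q' {t | H' < |χ' t - a'|} =
      ∑ t, ∑ t', q t * (q' t' * (if H' < |χ' t' - a'| then (1 : ℝ) else 0)) := by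
    rw [Pool.KAF.Pr_eq, Finset.sum_comm]
    refine Finset.sum_congr rfl fun t _ => ?_
    rw [← Finset.sum_mul, hq.sum_one, one_mul]
    by_cases hd : H' < |χ' t - a'|
    · rw [if_pos (show t ∈ {t | H' < |χ' t - a'|} from hd), if_pos hd, mul_one]
    · rw [if_neg (show t ∉ {t | H' < |χ' t - a'|} from hd), if_neg hd, mul_zero]
  exact by
   have h4 : (1 : ℝ) ≤ Ex q (fun t => Pr q' {t' | H < |χ t - χ' t'|}) +
       Pr q {t | H' < |χ t - a|} + Pr q' {t | H' < |χ' t - a'|} := by
     rw [e1, e2, e3, ← Finset.sum_add_distrib, ← Finset.sum_add_distrib]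
     refine e0.trans_le (Finset.sum_le_sum fun t _ => ?_)
     rw [← Finset.sum_add_distrib, ← Finset.sum_add_distrib]
     refine Finset.sum_le_sum fun t' _ => ?_
     rw [← mul_add, ← mul_add, ← mul_add, ← mul_add]
     refine mul_le_mul_of_nonneg_left ?_ (hq.nonneg t)
     have h5 : (1 : ℝ) ≤ (if H < |χ t - χ' t'| then (1 : ℝ) else 0) +
         (if H' < |χ t - a| then (1 : ℝ) else 0) + (if H' < |χ' t' - a'| then (1 : ℝ) else 0) := by
       by_cases g1 : H < |χ t - χ' t'|
       · rw [if_pos g1]
         split_ifs <;> norm_num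
       by_cases g2 : H' < |χ t - a|
       · rw [if_pos g2]
         split_ifs <;> norm_num
       by_cases g3 : H' < |χ' t' - a'|
       · rw [if_pos g3]
         split_ifs <;> norm_num
       exfalso
       rw [not_lt] at g1 g2 g3
       have g4 : |a - a'| ≤ |χ t - χ' t'| + |χ t - a| + |χ' t' - a'| := by
         have i1 := abs_add_le (χ t - χ' t') (-(χ t - a) + (χ' t' - a'))
         have i2 := abs_add_le (-(χ t - a)) (χ' t' - a')
         rw [abs_neg] at i2
         have i3 : χ t - χ' t' + (-(χ t - a) + (χ' t' - a')) = a - a' := by ring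
         rw [i3] at i1
         linarith only [hcon, g1, g2, g3, i1, i2]
       linarith only [hcon, g1, g2, g3, g4]
     have h6 := mul_le_mul_of_nonneg_left h5 (hq'.nonneg t')
     rw [mul_one] at h6
     exact h6
   linarith

/-- An element at most the average. -/
theorem exists_le_avg (S : Finset ℕ) (f : ℕ → ℝ) (M m δ : ℝ) (hm : 0 < m) (hS : m ≤ S.card)
    (hf : ∑ s ∈ S, f s ≤ M) (hM : M ≤ δ * m) (hδ : 0 ≤ δ) : ∃ s ∈ S, f s ≤ δ := by
  have hne : S.Nonempty := by
    rw [← Finset.card_pos]
    have : (0 : ℝ) < S.card := lt_of_lt_of_le hm hS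
    exact_mod_cast this
  refine Finset.exists_le_of_sum_le hne ?_
  rw [Finset.sum_const, nsmul_eq_mul]
  have := mul_le_mul_of_nonneg_left hS hδ
  linarith only [hf, hM, this]

end

/-- **(A5), (A6) at one base.** -/
theorem als_one {T D : Type} [Fintype T] [Fintype D] (n X N₀ a₀ : ℕ) (hn : 0 < n)
    (hna : 2 * n ≤ a₀) (haX : 16 * a₀ ≤ X) (u : ℝ) (hu : 0 < u) (hu1 : u ≤ 1) (hNu : 4 / u ≤ N₀)
    (J : Finset ℕ) (hJ : ∀ j ∈ J, a₀ ≤ j ∧ j < X)
    (hJw : ∀ a b : ℕ, a₀ ≤ a → a + n ≤ b → b ≤ X →
      u * ((b : ℝ) - a) ≤ (J.filter (fun j => a ≤ j ∧ j < b)).card)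
    (q : ℕ → T → ℝ) (hq : ∀ i < n, IsLaw (q i)) (r : ℕ → D → ℝ) (hr : ∀ s < X, IsLaw (r s))
    (χ : ℕ → T → ℝ) (dy db : D → ℝ) (Y : ℕ → ℝ) (hY : ∀ s, 0 < Y s)
    (hY2 : ∀ s, Y s ≤ 2 * Y (s + 1)) (h : ℝ) (hh : 0 ≤ h)
    (Bg : Finset ℕ) (η : ℝ) (hη : 0 < η) (hη1 : η ≤ 1)
    (hBg : ∀ s, s + 1 < X → s ∉ Bg → ∀ d, η * r (s + 1) d ≤ r s d)
    (hBgc : (Bg.card : ℝ) ≤ u ^ 2 * X / 16)
    (A N θ : ℝ) (hθ : 0 < θ)
    (hA : ∑ i ∈ range n, ∑ s ∈ range X, (if s + i ∈ J then
      Ex (q i) (fun t => Pr (r s) {d | h * Y s < |db d - χ i t * dy d|}) else 0) ≤ A)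
    (hN : ∑ s ∈ range X, Pr (r s) {d | |dy d| < Y s} ≤ N)
    (hc : 2 * θ / η * X + N ≤ 1 / 4 * (u ^ 2 / 16 * X))
    (hAn : (4 * N₀ ^ 2 + 1) * (A / (θ * X)) < u ^ 2 / 4 * n) :
    ∃ La : ℝ, ∀ (j : ℕ) (χ' : ℝ), j ≤ a₀ → ∑ s ∈ range X, (if s + j ∈ J then
      Pr (r s) {d | h * Y s < |db d - χ' * dy d|} else 0) ≤ θ * X →
      |χ' - La| ≤ (14 * N₀ + 6) * h := by
  classical
  have hX : 0 < X := by omega
  have hXr : (0 : ℝ) < X := by exact_mod_cast hX
  have hnr : (0 : ℝ) < n := by exact_mod_cast hn
  have hu2 : u ^ 2 ≤ u := by nlinarith only [hu, hu1]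
  obtain ⟨δ, hδe⟩ : ∃ δ : ℝ, δ = 1 / 4 := ⟨_, rfl⟩
  rw [← hδe] at hc
  have hδ : 3 * δ < 1 := by rw [hδe]; norm_num
  have hN₀ : 1 ≤ N₀ := by
    by_contra hc'
    have : N₀ = 0 := by omega
    rw [this, Nat.cast_zero, div_le_iff₀ hu] at hNu
    linarith only [hNu]
  have ha₀ : (0 : ℝ) ≤ a₀ := Nat.cast_nonneg _
  have haXr : 16 * (a₀ : ℝ) ≤ X := by exact_mod_cast haX
  have hnar : 2 * (n : ℝ) ≤ a₀ := by exact_mod_cast hna
  have hJu' : 15 / 16 * (u * X) ≤ J.card := by
    have h1 := hJw a₀ X le_rfl (by omega) le_rfl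
    have h2 : ((J.filter (fun j => a₀ ≤ j ∧ j < X)).card : ℝ) ≤ J.card := by
      exact_mod_cast card_le_card (filter_subset _ _)
    have h3 : u * (16 * a₀) ≤ u * X := mul_le_mul_of_nonneg_left haXr hu.le
    linarith only [h1, h2, h3]
  have hJu : u / 2 * X ≤ J.card := by
    have : 0 ≤ u * X := by positivity
    linarith only [hJu']
  set a : ℕ → ℕ → ℝ := fun i s =>
    Ex (q i) (fun t => Pr (r s) {d | h * Y s < |db d - χ i t * dy d|}) with ha
  set b : ℕ → ℝ := fun s => Pr (r s) {d | |dy d| < Y s} with hb
  have hq0 : ∀ i < n, ∀ t, 0 ≤ q i t := fun i hi => (hq i hi).nonneg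
  have ha0 : ∀ i < n, ∀ s < X, 0 ≤ a i s := fun i hi s hs =>
    Ex_nonneg (hq0 i hi) fun t _ => Pool.KAF.Pr_nonneg (hr s hs).nonneg _
  exact by
   have hb0 : ∀ s < X, 0 ≤ b s := fun s hs => Pool.KAF.Pr_nonneg (hr s hs).nonneg _
   set c : ℕ → ℝ := fun i => ∑ s ∈ range X, (if s + i ∈ J then a i s else 0) with hcdef
   have hc0 : ∀ i < n, 0 ≤ c i := fun i hi => Finset.sum_nonneg fun s hs => by
     split_ifs
     · exact ha0 i hi s (mem_range.1 hs)
     · exact le_rfl
   have hN0 : 0 ≤ N := le_trans (Finset.sum_nonneg fun s hs => hb0 s (mem_range.1 hs)) hN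
   have hθη : θ ≤ θ / η := by
     rw [le_div_iff₀ hη]
     nlinarith only [hη1, hθ]
   have hδ0 : 0 ≤ δ := by rw [hδe]; norm_num
   -- the bad scales
   set B : Finset ℕ := (range n).filter (fun i => θ * X < c i) with hB
   have hBc : (B.card : ℝ) ≤ A / (θ * X) := by
     rw [le_div_iff₀ (by positivity)]
     have h1 : (B.card : ℝ) * (θ * X) ≤ ∑ i ∈ B, c i := by
       rw [← nsmul_eq_mul, ← Finset.sum_const]
       exact Finset.sum_le_sum fun i hi => (mem_filter.1 hi).2.le
     have h2 : ∑ i ∈ B, c i ≤ ∑ i ∈ range n, c i :=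
       Finset.sum_le_sum_of_subset_of_nonneg (filter_subset _ _) fun i hi _ =>
         hc0 i (mem_range.1 hi)
     linarith only [hA, h1, h2]
   have hgood : ∀ i < n, i ∉ B → c i ≤ θ * X := by
     intro i hi hiB
     by_contra hcon
     exact hiB (mem_filter.2 ⟨mem_range.2 hi, not_le.1 hcon⟩)
   -- sums over sets of depths
   have hsum : ∀ i < n, c i ≤ θ * X → ∀ (S : Finset ℕ) (k : ℕ), (∀ s ∈ S, s + k + i ∈ J) →
       ∑ s ∈ S, a i (s + k) ≤ θ * X := by
     intro i hi hiB S k hS
     refine le_trans ?_ hiB
     have h1 : ∑ s ∈ S, a i (s + k) = ∑ s ∈ S.image (fun s => s + k),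
         (if s + i ∈ J then a i s else 0) := by
       rw [Finset.sum_image fun x _ y _ hxy => Nat.add_right_cancel hxy]
       exact Finset.sum_congr rfl fun s hs => by rw [if_pos (hS s hs)]
     rw [h1]
     refine Finset.sum_le_sum_of_subset_of_nonneg ?_ ?_
     · intro x hx
       obtain ⟨s, hs, rfl⟩ := mem_image.1 hx
       have := (hJ _ (hS s hs)).2
       rw [mem_range]
       omega
     · intro s hs _
       split_ifs
       · exact ha0 i hi s (mem_range.1 hs)
       · exact le_rfl
   exact by
    have hsumb : ∀ (S : Finset ℕ) (k : ℕ), (∀ s ∈ S, s + k < X) → ∑ s ∈ S, b (s + k) ≤ N := by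
      intro S k hS
      refine le_trans ?_ hN
      have h1 : ∑ s ∈ S, b (s + k) = ∑ s ∈ S.image (fun s => s + k), b s := by
        rw [Finset.sum_image fun x _ y _ hxy => Nat.add_right_cancel hxy]
      rw [h1]
      refine Finset.sum_le_sum_of_subset_of_nonneg ?_ ?_
      · intro x hx
        obtain ⟨s, hs, rfl⟩ := mem_image.1 hx
        exact mem_range.2 (hS s hs)
      · intro s hs _
        exact hb0 s (mem_range.1 hs)
    -- pairs of scales in the same cells
    have hsame' : ∀ i j, i < n → j < n → c i ≤ θ * X → c j ≤ θ * X →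
        u ^ 2 / 16 * X ≤ ((range X).filter (fun s => s + i ∈ J ∧ s + j ∈ J)).card →
        Ex (q i) (fun t => Pr (q j) {t' | 2 * h < |χ i t - χ j t'|}) ≤ δ := by
      intro i j hi hj hiB hjB hS1
      set S : Finset ℕ := (range X).filter (fun s => s + i ∈ J ∧ s + j ∈ J) with hS
      have e1 := hsum i hi hiB S 0 fun s hs => (mem_filter.1 hs).2.1
      have e2 := hsum j hj hjB S 0 fun s hs => (mem_filter.1 hs).2.2
      have e3 := hsumb S 0 fun s hs => mem_range.1 (mem_filter.1 hs).1
      simp only [add_zero] at e1 e2 e3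
      obtain ⟨s, hs, hle⟩ := exists_le_avg S (fun s => a i s + a j s + b s) (2 * θ / η * X + N)
        (u ^ 2 / 16 * X) δ (by positivity) hS1 (by
          rw [Finset.sum_add_distrib, Finset.sum_add_distrib]
          have : θ * X ≤ θ / η * X := mul_le_mul_of_nonneg_right hθη hXr.le
          have e4 : 2 * θ / η * X = θ / η * X + θ / η * X := by ring
          linarith only [e1, e2, e3, this, e4]) hc hδ0
      have hsX : s < X := mem_range.1 (mem_filter.1 hs).1
      refine (pair_le (hq i hi) (hq j hj) (hr s hsX) (χ i) (χ j)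
        (fun t => {d | h * Y s < |db d - χ i t * dy d|})
        (fun t => {d | h * Y s < |db d - χ j t * dy d|}) {d | |dy d| < Y s} (2 * h) ?_).trans hle
      intro t t' d h1 h2 h3
      simp only [Set.mem_ofPred_eq, not_lt] at h1 h2 h3
      have h4 : |(χ i t - χ j t') * dy d| ≤ 2 * h * Y s := by
        have : (χ i t - χ j t') * dy d = (db d - χ j t' * dy d) - (db d - χ i t * dy d) := by ring
        rw [this]
        have := abs_sub (db d - χ j t' * dy d) (db d - χ i t * dy d)
        linarith only [h1, h2, this]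
      rw [abs_mul] at h4
      by_contra hcon
      push Not at hcon
      have h5 : 2 * h * Y s < |χ i t - χ j t'| * |dy d| := by
        calc 2 * h * Y s < |χ i t - χ j t'| * Y s := mul_lt_mul_of_pos_right hcon (hY s)
          _ ≤ _ := mul_le_mul_of_nonneg_left h3 (abs_nonneg _)
      linarith only [h4, h5]
    exact by
     have hsame : ∀ i j, i ≤ j → j < n → i ∉ B → j ∉ B →
         u ^ 2 * X / 16 ≤ (J.filter (fun x => x + (j - i) ∈ J)).card →
         Ex (q i) (fun t => Pr (q j) {t' | 2 * h < |χ i t - χ j t'|}) ≤ δ := by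
       intro i j hij hj hiB hjB hcard
       set S : Finset ℕ := (range X).filter (fun s => s + i ∈ J ∧ s + j ∈ J) with hS
       have hcS : (J.filter (fun x => x + (j - i) ∈ J)).card ≤ S.card := by
         have h1 : J.filter (fun x => x + (j - i) ∈ J) ⊆ S.image (fun s => s + i) := by
           intro x hx
           obtain ⟨hx1, hx2⟩ := mem_filter.1 hx
           have hx3 := hJ x hx1
           rw [mem_image]
           refine ⟨x - i, mem_filter.2 ⟨mem_range.2 (by omega), ?_, ?_⟩, by omega⟩
           · rwa [show x - i + i = x by omega]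
           · rwa [show x - i + j = x + (j - i) by omega]
         exact (card_le_card h1).trans card_image_le
       have hcS' : ((J.filter (fun x => x + (j - i) ∈ J)).card : ℝ) ≤ S.card := by
         exact_mod_cast hcS
       have hS1 : u ^ 2 / 16 * X ≤ S.card := by linarith only [hcard, hcS']
       exact hsame' i j (by omega) hj (hgood i (by omega) hiB) (hgood j hj hjB) hS1
     -- neighbouring scales
     have hnext : ∀ i, i + 1 < n → i ∉ B → i + 1 ∉ B →
         Ex (q i) (fun t => Pr (q (i + 1)) {t' | 3 * h < |χ i t - χ (i + 1) t'|}) ≤ δ := by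
       intro i hi hiB hiB'
       set S : Finset ℕ := (range X).filter (fun s => s + 1 + i ∈ J ∧ s ∉ Bg) with hS
       have hcS : J.card ≤ Bg.card + S.card := by
         have h1 : J ⊆ Bg.image (fun s => s + 1 + i) ∪ S.image (fun s => s + 1 + i) := by
           intro x hx1
           have hx3 := hJ x hx1
           rw [mem_union, mem_image, mem_image]
           by_cases hxb : x - (i + 1) ∈ Bg
           · exact Or.inl ⟨x - (i + 1), hxb, by omega⟩
           · refine Or.inr ⟨x - (i + 1), mem_filter.2 ⟨mem_range.2 (by omega), ?_, hxb⟩, by omega⟩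
             rwa [show x - (i + 1) + 1 + i = x by omega]
         calc J.card ≤ (Bg.image (fun s => s + 1 + i) ∪ S.image (fun s => s + 1 + i)).card :=
               card_le_card h1
           _ ≤ (Bg.image (fun s => s + 1 + i)).card + (S.image (fun s => s + 1 + i)).card :=
             card_union_le _ _
           _ ≤ Bg.card + S.card := Nat.add_le_add card_image_le card_image_le
       have hcS' : (J.card : ℝ) ≤ Bg.card + S.card := by exact_mod_cast hcS
       have hu2X : u ^ 2 * X ≤ u * X := mul_le_mul_of_nonneg_right hu2 hXr.le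
       have hS1 : u ^ 2 / 16 * X ≤ S.card := by
         have : 0 ≤ u ^ 2 * X := by positivity
         linarith only [hBgc, hJu', hcS', hu2X]
       have hSX : ∀ s ∈ S, s + 1 < X := by
         intro s hs
         have := (hJ _ (mem_filter.1 hs).2.1).2
         omega
       have e1 := hsum i (by omega) (hgood i (by omega) hiB) S 1 fun s hs => (mem_filter.1 hs).2.1
       have e2 := hsum (i + 1) hi (hgood (i + 1) hi hiB') S 0 fun s hs => by
         have := (mem_filter.1 hs).2.1
         rwa [show s + 0 + (i + 1) = s + 1 + i by omega]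
       have e3 := hsumb S 1 hSX
       simp only [add_zero] at e2
       obtain ⟨s, hs, hle⟩ := exists_le_avg S (fun s => a i (s + 1) + a (i + 1) s / η + b (s + 1))
         (2 * θ / η * X + N) (u ^ 2 / 16 * X) δ (by positivity) hS1 (by
           rw [Finset.sum_add_distrib, Finset.sum_add_distrib, ← Finset.sum_div]
           have h1 : θ * X ≤ θ / η * X := mul_le_mul_of_nonneg_right hθη hXr.le
           have h2 : (∑ s ∈ S, a (i + 1) s) / η ≤ θ * X / η :=
             div_le_div_of_nonneg_right e2 hη.le
           have e4 : 2 * θ / η * X = θ / η * X + θ * X / η := by ring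
           linarith only [e1, e3, h1, h2, e4]) hc hδ0
       have hs1 : s + 1 < X := hSX s hs
       have hsX : s < X := by omega
       have hsB : s ∉ Bg := (mem_filter.1 hs).2.2
       -- atomic in the finer cell
       have hfine : Ex (q (i + 1)) (fun t => Pr (r (s + 1))
           {d | h * Y s < |db d - χ (i + 1) t * dy d|}) ≤ a (i + 1) s / η := by
         rw [le_div_iff₀ hη, ha]
         simp only
         unfold Ex
         rw [Finset.sum_mul]
         refine Finset.sum_le_sum fun t _ => ?_
         rw [mul_assoc]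
         refine mul_le_mul_of_nonneg_left ?_ (hq0 (i + 1) hi t)
         beta_reduce
         rw [Pool.KAF.Pr_eq, Pool.KAF.Pr_eq, Finset.sum_mul]
         refine Finset.sum_le_sum fun d _ => ?_
         have := hBg s hs1 hsB d
         split_ifs
         · linarith only [this]
         · linarith only
       have hpl := pair_le (hq i (by omega)) (hq (i + 1) hi) (hr (s + 1) hs1) (χ i) (χ (i + 1))
         (fun t => {d | h * Y (s + 1) < |db d - χ i t * dy d|})
         (fun t => {d | h * Y s < |db d - χ (i + 1) t * dy d|}) {d | |dy d| < Y (s + 1)} (3 * h) ?_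
       · have hle' : a i (s + 1) + a (i + 1) s / η + b (s + 1) ≤ δ := hle
         have : Ex (q i) (fun t => Pr (r (s + 1)) {d | h * Y (s + 1) < |db d - χ i t * dy d|}) =
           a i (s + 1) := rfl
         have : Pr (r (s + 1)) {d | |dy d| < Y (s + 1)} = b (s + 1) := rfl
         linarith only [hle, hfine, hpl]
       intro t t' d h1 h2 h3
       simp only [Set.mem_ofPred_eq, not_lt] at h1 h2 h3
       have h4 : |(χ i t - χ (i + 1) t') * dy d| ≤ h * Y s + h * Y (s + 1) := by
         have : (χ i t - χ (i + 1) t') * dy d =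
           (db d - χ (i + 1) t' * dy d) - (db d - χ i t * dy d) := by ring
         rw [this]
         have := abs_sub (db d - χ (i + 1) t' * dy d) (db d - χ i t * dy d)
         linarith only [h1, h2, this]
       rw [abs_mul] at h4
       have h6 : h * Y s ≤ h * (2 * Y (s + 1)) := mul_le_mul_of_nonneg_left (hY2 s) hh
       by_contra hcon
       push Not at hcon
       have h5 : 3 * h * Y (s + 1) < |χ i t - χ (i + 1) t'| * |dy d| := by
         calc 3 * h * Y (s + 1) < |χ i t - χ (i + 1) t'| * Y (s + 1) :=
               mul_lt_mul_of_pos_right hcon (hY _)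
           _ ≤ _ := mul_le_mul_of_nonneg_left h3 (abs_nonneg _)
       linarith only [h4, h6, h5]
     -- the centres
     exact by
      have hcen : ∀ i, ∃ ce : ℝ, i < n → i ∉ B → Pr (q i) {t | 2 * h < |χ i t - ce|} ≤ δ := by
        intro i
        by_cases hi : i < n ∧ i ∉ B
        · have h1 := hsame i i le_rfl hi.1 hi.2 hi.2 (by
            have : J.filter (fun x => x + (i - i) ∈ J) = J := by
              refine Finset.filter_true_of_mem fun x hx => ?_
              rwa [Nat.sub_self, Nat.add_zero]
            rw [this]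
            have hu2X : u ^ 2 * X ≤ u * X := mul_le_mul_of_nonneg_right hu2 hXr.le
            have : 0 ≤ u ^ 2 * X := by positivity
            linarith only [hJu', hu2X])
          obtain ⟨ce, hce⟩ := exists_center (hq i hi.1) (χ i) (2 * h) δ h1
          exact ⟨ce, fun _ _ => hce⟩
        · exact ⟨0, fun h1 h2 => absurd ⟨h1, h2⟩ hi⟩
      choose ce hce using hcen
      -- the graph
      set Dd : ℕ → Prop := fun d => d = 1 ∨
        (u / 2) ^ 2 * X / 4 ≤ (J.filter (fun x => x + d ∈ J)).card with hDd
      obtain ⟨x₀, hx1, hx2, hx3⟩ := scales n N₀ hN₀ B Dd (Or.inl rfl) (by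
        intro A' hA' hcard
        obtain ⟨a', ha', b', hb', hab, hD⟩ := overlap X n J (fun j hj => (hJ j hj).2) (u / 2)
          (by positivity) hX hJu (by omega) A' hA' (by
            have h1 : (N₀ : ℝ) ≤ A'.card := by exact_mod_cast hcard.le
            have h2 : 2 / (u / 2) = 4 / u := by ring
            rw [h2]
            linarith only [hNu, h1])
        exact ⟨a', ha', b', hb', hab, Or.inr hD⟩) (fun i j => |ce i - ce j|) (7 * h) (by positivity)
        (fun i => by simp) (fun i j => abs_sub_comm _ _)
        (fun i j k => abs_sub_le _ _ _) (by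
          intro i j hij hj hiB hjB hD
          have hci := hce i (by omega) hiB
          have hcj := hce j hj hjB
          rcases hD with hD | hD
          · have hj' : j = i + 1 := by omega
            subst hj'
            have h1 := center_close (hq i (by omega)) (hq (i + 1) hj) (χ i) (χ (i + 1)) (ce i)
              (ce (i + 1)) (3 * h) (2 * h) δ hδ (hnext i hj hiB hjB) hci hcj
            linarith only [h1]
          · have h1 := center_close (hq i (by omega)) (hq j hj) (χ i) (χ j) (ce i)
              (ce j) (2 * h) (2 * h) δ hδ (hsame i j hij.le hj hiB hjB (by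
                have : 0 ≤ u ^ 2 * X := by positivity
                linarith only [hD])) hci hcj
            linarith only [hh, h1])
      -- the good scales
      exact by
       set G : Finset ℕ := (range n).filter (fun i => i ∉ B ∧ x₀ ≤ i) with hG
       have hBn : (4 * (N₀ : ℝ) ^ 2 + 1) * B.card < u ^ 2 / 4 * n :=
         lt_of_le_of_lt (mul_le_mul_of_nonneg_left hBc (by positivity)) hAn
       -- every good scale is met
       have hmeet : ∀ i ≤ a₀, ∃ j ∈ G,
           u ^ 2 / 16 * X ≤ ((range X).filter (fun s => s + i ∈ J ∧ s + j ∈ J)).card := by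
         intro i hi
         by_contra hcon
         push Not at hcon
         have hir : (i : ℝ) ≤ a₀ := by exact_mod_cast hi
         -- the sum of all intersections
         have h1 : ∑ j ∈ range n, (((range X).filter (fun s => s + i ∈ J ∧ s + j ∈ J)).card : ℝ) ≤
             (4 * N₀ ^ 2 + 1) * B.card * X + n * (u ^ 2 / 16 * X) := by
           have h2 : ∀ j ∈ range n,
               (((range X).filter (fun s => s + i ∈ J ∧ s + j ∈ J)).card : ℝ) ≤
               ((if j ∈ B then (1 : ℝ) else 0) + (if j < x₀ then (1 : ℝ) else 0)) * X +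
                 u ^ 2 / 16 * X := by
             intro j hj
             have hle : (((range X).filter (fun s => s + i ∈ J ∧ s + j ∈ J)).card : ℝ) ≤ X := by
               have : ((range X).filter (fun s => s + i ∈ J ∧ s + j ∈ J)).card ≤ (range X).card :=
                 card_le_card (filter_subset _ _)
               rw [card_range] at this
               exact_mod_cast this
             have hpos : 0 ≤ u ^ 2 / 16 * X := by positivity
             by_cases hjB : j ∈ B
             · rw [if_pos hjB]
               have : 0 ≤ (if j < x₀ then (1 : ℝ) else 0) * X := by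
                 split_ifs <;> simp
               linarith only [hBgc, hle, this]
             by_cases hjx : j < x₀
             · rw [if_neg hjB, if_pos hjx]
               linarith only [hBgc, hle]
             rw [if_neg hjB, if_neg hjx]
             have := hcon j (mem_filter.2 ⟨hj, hjB, not_lt.1 hjx⟩)
             linarith only [this]
           refine (Finset.sum_le_sum h2).trans ?_
           rw [Finset.sum_add_distrib, ← Finset.sum_mul, Finset.sum_add_distrib, Finset.sum_const,
             card_range, nsmul_eq_mul, ← Finset.sum_filter, ← Finset.sum_filter, Finset.sum_const,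
             Finset.sum_const, nsmul_eq_mul, nsmul_eq_mul, mul_one, mul_one]
           have h3 : (((range n).filter (fun i => i ∈ B)).card : ℝ) ≤ B.card := by
             exact_mod_cast card_le_card fun i hi => (mem_filter.1 hi).2
           have h4 : (((range n).filter (fun i => i < x₀)).card : ℝ) ≤ x₀ := by
             have : ((range n).filter (fun i => i < x₀)).card ≤ (range x₀).card :=
               card_le_card fun i hi => mem_range.2 (mem_filter.1 hi).2
             rw [card_range] at this
             exact_mod_cast this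
           have h5 : (x₀ : ℝ) ≤ 4 * N₀ ^ 2 * B.card := by exact_mod_cast hx2
           have h6 : ((((range n).filter (fun i => i ∈ B)).card : ℝ) +
               ((range n).filter (fun i => i < x₀)).card) * X ≤ (4 * N₀ ^ 2 + 1) * B.card * X := by
             refine mul_le_mul_of_nonneg_right ?_ hXr.le
             linarith only [h3, h4, h5]
           linarith only [h6]
         -- the sum from below
         set S : Finset ℕ := (range X).filter (fun s => s + i ∈ J ∧ a₀ ≤ s ∧ s + n ≤ X) with hS
         have hcS : (J.filter (fun x => 2 * a₀ ≤ x ∧ x < X - n)).card ≤ S.card := by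
           have h2 : J.filter (fun x => 2 * a₀ ≤ x ∧ x < X - n) ⊆ S.image (fun s => s + i) := by
             intro x hx
             obtain ⟨hx1, hx2, hx3⟩ := mem_filter.1 hx
             rw [mem_image]
             refine ⟨x - i, mem_filter.2 ⟨mem_range.2 (by omega), ?_, by omega, by omega⟩,
                 by omega⟩
             rwa [show x - i + i = x by omega]
           exact (card_le_card h2).trans card_image_le
         have hcS' : ((J.filter (fun x => 2 * a₀ ≤ x ∧ x < X - n)).card : ℝ) ≤ S.card := by
           exact_mod_cast hcS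
         have hw := hJw (2 * a₀) (X - n) (by omega) (by omega) (by omega)
         rw [Nat.cast_sub (by omega)] at hw
         push_cast at hw
         have h3 : u * n * S.card ≤
             ∑ j ∈ range n, (((range X).filter (fun s => s + i ∈ J ∧ s + j ∈ J)).card : ℝ) := by
           have e1 : ∀ j, (((range X).filter (fun s => s + i ∈ J ∧ s + j ∈ J)).card : ℝ) =
               ∑ s ∈ range X, (if s + i ∈ J ∧ s + j ∈ J then (1 : ℝ) else 0) := by
             intro j
             rw [← Finset.sum_filter, Finset.sum_const, nsmul_eq_mul, mul_one]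
           simp only [e1]
           rw [Finset.sum_comm]
           have e2 : u * n * S.card = ∑ s ∈ S, u * n := by
             rw [Finset.sum_const, nsmul_eq_mul]
             ring
           rw [e2]
           refine (Finset.sum_le_sum ?_).trans (Finset.sum_le_sum_of_subset_of_nonneg
             (f := fun s => ∑ j ∈ range n, (if s + i ∈ J ∧ s + j ∈ J then (1 : ℝ) else 0))
             (filter_subset (fun s => s + i ∈ J ∧ a₀ ≤ s ∧ s + n ≤ X) (range X)) ?_)
           · intro s hs
             obtain ⟨f1, f2, f3, f4⟩ := mem_filter.1 hs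
             have f5 := hJw s (s + n) f3 le_rfl f4
             push_cast at f5
             rw [add_sub_cancel_left] at f5
             refine f5.trans ?_
             rw [← Finset.sum_filter, Finset.sum_const, nsmul_eq_mul, mul_one]
             have : (J.filter (fun j => s ≤ j ∧ j < s + n)).card ≤
                 ((range n).filter (fun j => s + i ∈ J ∧ s + j ∈ J)).card := by
               refine Finset.card_le_card_of_injOn (fun j => j - s) ?_ ?_
               · intro j hj
                 obtain ⟨g1, g2, g3⟩ := mem_filter.1 hj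
                 refine mem_filter.2 ⟨mem_range.2 (show j - s < n by omega), f2, ?_⟩
                 show s + (j - s) ∈ J
                 rwa [show s + (j - s) = j by omega]
               · intro j hj j' hj' hjj
                 obtain ⟨g1, g2, g3⟩ := mem_filter.1 hj
                 obtain ⟨g4, g5, g6⟩ := mem_filter.1 hj'
                 have : j - s = j' - s := hjj
                 omega
             exact_mod_cast this
           · intro s _ _
             exact Finset.sum_nonneg fun j _ => by split_ifs <;> norm_num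
         have h4 : u / 2 * X ≤ S.card := by
           have h41 : u * (2 * a₀ + n) ≤ u * (X / 2) := mul_le_mul_of_nonneg_left (by linarith only [hnr, haXr, hnar]) hu.le
           have h42 : u * ((X : ℝ) - n - 2 * a₀) = u * X - u * (2 * a₀ + n) := by ring
           linarith only [hcS', hw, h41]
         have h5 : u * n * (u / 2 * X) ≤ u * n * S.card :=
           mul_le_mul_of_nonneg_left h4 (by positivity)
         have h6 : (4 * N₀ ^ 2 + 1) * B.card * X < u ^ 2 / 4 * n * X :=
           mul_lt_mul_of_pos_right hBn hXr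
         have h7 : 0 ≤ u ^ 2 * n * X := by positivity
         have h8 : u * n * (u / 2 * X) = u ^ 2 * n * X / 2 := by ring
         have h9 : u ^ 2 / 4 * n * X = u ^ 2 * n * X / 4 := by ring
         have h10 : n * (u ^ 2 / 16 * X) = u ^ 2 * n * X / 16 := by ring
         linarith only [h1, h3, h5, h6, h7]
       -- the common slope
       exact by
        obtain ⟨i₀, hi₀, -⟩ := hmeet 0 (by omega)
        obtain ⟨g1, g2, g3⟩ := mem_filter.1 hi₀
        refine ⟨ce i₀, fun i χ' hi hci => ?_⟩
        obtain ⟨j, hj, hjS⟩ := hmeet i hi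
        obtain ⟨f1, f2, f3⟩ := mem_filter.1 hj
        have hjn := mem_range.1 f1
        have h1 : |ce j - ce i₀| ≤ 2 * N₀ * (7 * h) :=
          hx3 j i₀ f3 g3 hjn (mem_range.1 g1) f2 g2
        have h3 := hce j hjn f2
        set S : Finset ℕ := (range X).filter (fun s => s + i ∈ J ∧ s + j ∈ J) with hS
        have e1 : ∑ s ∈ S, Pr (r s) {d | h * Y s < |db d - χ' * dy d|} ≤ θ * X := by
          refine le_trans ?_ hci
          have k1 : ∑ s ∈ S, Pr (r s) {d | h * Y s < |db d - χ' * dy d|} = ∑ s ∈ S,
              (if s + i ∈ J then Pr (r s) {d | h * Y s < |db d - χ' * dy d|} else 0) :=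
            Finset.sum_congr rfl fun s hs => by rw [if_pos (mem_filter.1 hs).2.1]
          rw [k1]
          refine Finset.sum_le_sum_of_subset_of_nonneg (filter_subset _ _) ?_
          intro s hs _
          split_ifs
          · exact Pool.KAF.Pr_nonneg (hr s (mem_range.1 hs)).nonneg _
          · exact le_rfl
        have e2 := hsum j hjn (hgood j hjn f2) S 0 fun s hs => (mem_filter.1 hs).2.2
        have e3 := hsumb S 0 fun s hs => mem_range.1 (mem_filter.1 hs).1
        simp only [add_zero] at e2 e3
        obtain ⟨s, hs, hle⟩ := exists_le_avg S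
          (fun s => Pr (r s) {d | h * Y s < |db d - χ' * dy d|} + a j s + b s) (2 * θ / η * X + N)
          (u ^ 2 / 16 * X) δ (by positivity) hjS (by
            rw [Finset.sum_add_distrib, Finset.sum_add_distrib]
            have : θ * X ≤ θ / η * X := mul_le_mul_of_nonneg_right hθη hXr.le
            have e4 : 2 * θ / η * X = θ / η * X + θ / η * X := by ring
            linarith only [e1, e2, e3, this, e4]) hc hδ0
        exact by
         have hsX : s < X := mem_range.1 (mem_filter.1 hs).1
         have hun : IsLaw (fun _ : Unit => (1 : ℝ)) := ⟨fun _ => zero_le_one, by simp⟩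
         have hpl := pair_le hun (hq j hjn) (hr s hsX) (fun _ => χ') (χ j)
           (fun _ => {d | h * Y s < |db d - χ' * dy d|})
           (fun t => {d | h * Y s < |db d - χ j t * dy d|}) {d | |dy d| < Y s} (2 * h) (by
             intro t t' d k1 k2 k3
             simp only [Set.mem_ofPred_eq, not_lt] at k1 k2 k3
             have h4 : |(χ' - χ j t') * dy d| ≤ 2 * h * Y s := by
               have : (χ' - χ j t') * dy d = (db d - χ j t' * dy d) - (db d - χ' * dy d) := by ring
               rw [this]
               have := abs_sub (db d - χ j t' * dy d) (db d - χ' * dy d)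
               linarith only [k1, k2, this]
             rw [abs_mul] at h4
             by_contra hcon
             push Not at hcon
             have h5 : 2 * h * Y s < |χ' - χ j t'| * |dy d| := by
               calc 2 * h * Y s < |χ' - χ j t'| * Y s := mul_lt_mul_of_pos_right hcon (hY s)
                 _ ≤ _ := mul_le_mul_of_nonneg_left k3 (abs_nonneg _)
             linarith only [h4, h5])
         have hle' : Pr (r s) {d | h * Y s < |db d - χ' * dy d|} + a j s + b s ≤ δ := hle
         have hE : Ex (fun _ : Unit => (1 : ℝ)) (fun _ => Pr (r s) {d | h * Y s < |db d - χ' * dy d|}) =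
             Pr (r s) {d | h * Y s < |db d - χ' * dy d|} := Ex_const hun.sum_one _
         have h5 := center_close hun (hq j hjn) (fun _ => χ') (χ j) χ' (ce j) (2 * h) (2 * h) δ hδ
           (hpl.trans (by
             have k1 : Ex (q j) (fun t => Pr (r s) {d | h * Y s < |db d - χ j t * dy d|}) = a j s := rfl
             have k2 : Pr (r s) {d | |dy d| < Y s} = b s := rfl
             rw [hE, k1, k2]
             exact hle')) (by
             rw [Pool.KAF.Pr_eq]
             refine le_trans (Finset.sum_nonpos fun t _ => ?_) hδ0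
             rw [if_neg]
             simp only [Set.mem_ofPred_eq, not_lt, sub_self, abs_zero]
             positivity) h3
         exact by
          have h6 := abs_sub_le χ' (ce j) (ce i₀)
          have h7 : (14 * (N₀ : ℝ) + 6) * h = 2 * N₀ * (7 * h) + 6 * h := by ring
          linarith only [h1, h5, h6]

end Pool.OC
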