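import Pool.Agent.H20.OC.Tools
import Pool.Agent.H20.OC.ALS

/-!
# OC: the cells of stage A and the atomic forms
-/

set_option autoImplicit false

namespace Pool.OC

open Finset Real
open Pool.Agent.H49.Ent Pool.Agent.H32.Dense Pool.STK Pool.KAF

/-! ### floors -/

theorem floor_half {x x' : ℝ} (h : ⌊2 * x⌋ = ⌊2 * x'⌋) : ⌊x⌋ = ⌊x'⌋ := by
  have h1 := Int.floor_le x
  have h2 := Int.lt_floor_add_one x
  have h3 := Int.floor_le x'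
  have h4 := Int.lt_floor_add_one x'
  have a1 : 2 * ⌊x⌋ ≤ ⌊2 * x⌋ := by
    rw [Int.le_floor]
    push_cast
    linarith
  have a2 : ⌊2 * x⌋ < 2 * ⌊x⌋ + 2 := by
    rw [Int.floor_lt]
    push_cast
    linarith
  have a3 : 2 * ⌊x'⌋ ≤ ⌊2 * x'⌋ := by
    rw [Int.le_floor]
    push_cast
    linarith
  have a4 : ⌊2 * x'⌋ < 2 * ⌊x'⌋ + 2 := by
    rw [Int.floor_lt]
    push_cast
    linarith
  omega

theorem floor_digit (x : ℝ) : ⌊2 * x⌋ - 2 * ⌊x⌋ = 0 ∨ ⌊2 * x⌋ - 2 * ⌊x⌋ = 1 := by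
  have h1 := Int.floor_le x
  have h2 := Int.lt_floor_add_one x
  have a1 : 2 * ⌊x⌋ ≤ ⌊2 * x⌋ := by
    rw [Int.le_floor]
    push_cast
    linarith
  have a2 : ⌊2 * x⌋ < 2 * ⌊x⌋ + 2 := by
    rw [Int.floor_lt]
    push_cast
    linarith
  omega

theorem floor_near {c x x' : ℝ} (hc : 0 < c) (h : ⌊c * x⌋ = ⌊c * x'⌋) : |x - x'| ≤ c⁻¹ := by
  have h1 := Int.abs_sub_lt_one_of_floor_eq_floor h
  rw [← mul_sub, abs_mul, abs_of_pos hc] at h1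
  rw [← one_div, le_div_iff₀ hc, mul_comm]
  exact h1.le

/-! ### the cells of stage A -/

section

variable (d : Dat) (m : d.Lam → ℤ)

theorem GA_nest {s : ℕ} {l l' : d.Lam} (h : d.GA m (s + 1) l = d.GA m (s + 1) l') :
    d.GA m s l = d.GA m s l' := by
  unfold Dat.GA at h ⊢
  simp only [Prod.mk.injEq] at h ⊢
  obtain ⟨h1, h2, h3, h4⟩ := h
  refine ⟨h1, h2, floor_half ?_, floor_half ?_⟩
  · rw [← mul_assoc, ← mul_assoc, ← pow_succ']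
    exact h3
  · rw [← mul_assoc, ← mul_assoc, ← zpow_one_add₀ (by norm_num), ← zpow_one_add₀ (by norm_num)]
    have e1 : (1 : ℤ) + ((s : ℤ) + m l) = ((s + 1 : ℕ) : ℤ) + m l := by push_cast; ring
    have e2 : (1 : ℤ) + ((s : ℤ) + m l') = ((s + 1 : ℕ) : ℤ) + m l' := by push_cast; ring
    rw [e1, e2]
    exact h4

/-- The digits of the subcell. -/
noncomputable def dgA (s : ℕ) (l : d.Lam) : ℤ × ℤ :=
  (⌊(2 : ℝ) * ((2 : ℝ) ^ s * d.yR l)⌋ - 2 * ⌊(2 : ℝ) ^ s * d.yR l⌋,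
    ⌊(2 : ℝ) * ((2 : ℝ) ^ ((s : ℤ) + m l) * d.beR l)⌋ - 2 * ⌊(2 : ℝ) ^ ((s : ℤ) + m l) * d.beR l⌋)

theorem dgA_mem (s : ℕ) (l : d.Lam) :
    dgA d m s l ∈ (({0, 1} : Finset ℤ) ×ˢ ({0, 1} : Finset ℤ)) := by
  unfold dgA
  simp only [Finset.mem_product, Finset.mem_insert, Finset.mem_singleton]
  exact ⟨floor_digit _, floor_digit _⟩

theorem GA_sub {s : ℕ} {l l' : d.Lam} (h : d.GA m s l = d.GA m s l')
    (ho : dgA d m s l = dgA d m s l') : d.GA m (s + 1) l = d.GA m (s + 1) l' := by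
  unfold Dat.GA at h ⊢
  unfold dgA at ho
  simp only [Prod.mk.injEq] at h ho ⊢
  obtain ⟨h1, h2, h3, h4⟩ := h
  obtain ⟨h5, h6⟩ := ho
  have f1 : ∀ l, (2 : ℝ) ^ (s + 1) * d.yR l = 2 * ((2 : ℝ) ^ s * d.yR l) := fun l => by
    rw [← mul_assoc, ← pow_succ']
  have f2 : ∀ l, (2 : ℝ) ^ (((s + 1 : ℕ) : ℤ) + m l) * d.beR l =
      2 * ((2 : ℝ) ^ ((s : ℤ) + m l) * d.beR l) := fun l => by
    rw [← mul_assoc, ← zpow_one_add₀ (by norm_num)]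
    congr 2
    push_cast
    ring
  rw [f1, f1, f2, f2]
  refine ⟨h1, h2, ?_, ?_⟩
  · rw [h3] at h5
    linarith
  · rw [h4] at h6
    linarith

theorem GA_y {s : ℕ} {l l' : d.Lam} (h : d.GA m s l = d.GA m s l') :
    |d.yR l - d.yR l'| ≤ (2 : ℝ) ^ (-(s : ℤ)) := by
  unfold Dat.GA at h
  simp only [Prod.mk.injEq] at h
  have := floor_near (by positivity) h.2.2.1
  rwa [zpow_neg, zpow_natCast]

theorem GA_m {s : ℕ} {l l' : d.Lam} (h : d.GA m s l = d.GA m s l') : m l = m l' := by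
  unfold Dat.GA at h
  simp only [Prod.mk.injEq] at h
  exact h.1

theorem GA_b {s : ℕ} {l l' : d.Lam} (h : d.GA m s l = d.GA m s l') :
    |d.beR l - d.beR l'| ≤ (2 : ℝ) ^ (-((s : ℤ) + m l')) := by
  have hm := GA_m d m h
  unfold Dat.GA at h
  simp only [Prod.mk.injEq] at h
  obtain ⟨h1, h2, h3, h4⟩ := h
  rw [hm] at h4
  have := floor_near (by positivity) h4
  rwa [zpow_neg]

theorem GA_Z {s : ℕ} {l l' : d.Lam} (h : d.GA m s l = d.GA m s l') (t₁ t₀ : d.Tau) :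
    d.ZR t₁ t₀ l - d.ZR t₁ t₀ l' = (d.th t₀ - d.th t₁) * (d.beR l - d.beR l') -
      (d.S t₀ - d.S t₁) * (d.yR l - d.yR l') := by
  unfold Dat.GA at h
  simp only [Prod.mk.injEq] at h
  have h2 : d.omR l = d.omR l' := by
    unfold Dat.omR
    rw [h.2.1]
  unfold Dat.ZR
  rw [h2]
  ring

/-- The admissible pairs of times. -/
def gW (a : ℕ) : Set (ℤ × d.Tau × d.Tau) :=
  {x | d.th x.2.2 - d.th x.2.1 ≠ 0 ∧ |d.S x.2.2 - d.S x.2.1| ≤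
    (2 : ℝ) ^ ((a : ℤ) + 4 - x.1) * |d.th x.2.2 - d.th x.2.1|}

/-- The size of the differences of an admissible form. -/
theorem size_gW {a s : ℕ} {l l' : d.Lam} (h : d.GA m s l = d.GA m s l') (t₁ t₀ : d.Tau)
    (hW : (m l', t₁, t₀) ∈ gW d a) : |d.ZR t₁ t₀ l - d.ZR t₁ t₀ l'| ≤
      (2 : ℝ) ^ ((a : ℤ) + 5 - s - m l') * |d.th t₀ - d.th t₁| := by
  rw [GA_Z d m h]
  have h1 := GA_y d m h
  have h2 := GA_b d m h
  obtain ⟨-, h3⟩ := hW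
  simp only at h3
  have h4 : |(d.th t₀ - d.th t₁) * (d.beR l - d.beR l')| ≤
      (2 : ℝ) ^ (-((s : ℤ) + m l')) * |d.th t₀ - d.th t₁| := by
    rw [abs_mul, mul_comm]
    exact mul_le_mul_of_nonneg_right h2 (abs_nonneg _)
  have h5 : |(d.S t₀ - d.S t₁) * (d.yR l - d.yR l')| ≤
      (2 : ℝ) ^ ((a : ℤ) + 4 - m l') * |d.th t₀ - d.th t₁| * (2 : ℝ) ^ (-(s : ℤ)) := by
    rw [abs_mul]
    exact mul_le_mul h3 h1 (abs_nonneg _) (by positivity)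
  have h6 := abs_sub ((d.th t₀ - d.th t₁) * (d.beR l - d.beR l'))
    ((d.S t₀ - d.S t₁) * (d.yR l - d.yR l'))
  refine h6.trans ((add_le_add h4 h5).trans ?_)
  have e1 : (2 : ℝ) ^ ((a : ℤ) + 4 - m l') * |d.th t₀ - d.th t₁| * (2 : ℝ) ^ (-(s : ℤ)) =
      (2 : ℝ) ^ ((a : ℤ) + 4 - s - m l') * |d.th t₀ - d.th t₁| := by
    have : (2 : ℝ) ^ ((a : ℤ) + 4 - s - m l') =
        (2 : ℝ) ^ ((a : ℤ) + 4 - m l') * (2 : ℝ) ^ (-(s : ℤ)) := by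
      rw [← zpow_add₀ (by norm_num)]
      congr 1
      ring
    rw [this]
    ring
  have e2 : (2 : ℝ) ^ ((a : ℤ) + 5 - s - m l') = 2 * (2 : ℝ) ^ ((a : ℤ) + 4 - s - m l') := by
    rw [← zpow_one_add₀ (by norm_num)]
    congr 1
    ring
  have e3 : (2 : ℝ) ^ (-((s : ℤ) + m l')) ≤ (2 : ℝ) ^ ((a : ℤ) + 4 - s - m l') := by
    refine zpow_le_zpow_right₀ (by norm_num) ?_
    have : (0 : ℤ) ≤ a := Int.natCast_nonneg a
    linarith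
  rw [e1, e2]
  have e4 := mul_le_mul_of_nonneg_right e3 (abs_nonneg (d.th t₀ - d.th t₁))
  have e5 : 2 * (2 : ℝ) ^ ((a : ℤ) + 4 - s - m l') * |d.th t₀ - d.th t₁| =
      (2 : ℝ) ^ ((a : ℤ) + 4 - s - m l') * |d.th t₀ - d.th t₁| +
      (2 : ℝ) ^ ((a : ℤ) + 4 - s - m l') * |d.th t₀ - d.th t₁| := by ring
  linarith

/-! ### scales -/

theorem sc_spec {x : ℝ} (h0 : x ≠ 0) : (2 : ℝ) ^ (-sc x) ≤ |x| ∧ |x| < (2 : ℝ) ^ (1 - sc x) := by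
  have h1 : 0 < |x| := abs_pos.2 h0
  unfold sc
  constructor
  · rw [neg_neg]
    exact_mod_cast Int.zpow_log_le_self (b := 2) (by norm_num) h1
  · have := Int.lt_zpow_succ_log_self (b := 2) (by norm_num) |x|
    have e : (1 : ℤ) - -Int.log 2 |x| = Int.log 2 |x| + 1 := by ring
    rw [e]
    exact_mod_cast this

theorem sc_ge {x : ℝ} (h0 : x ≠ 0) {i : ℕ} (h : |x| < (2 : ℝ) ^ (-(i : ℤ))) :
    (i : ℤ) + 1 ≤ sc x := by
  by_contra hc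
  have h1 := (sc_spec h0).1
  have h2 : (2 : ℝ) ^ (-(i : ℤ)) ≤ (2 : ℝ) ^ (-sc x) :=
    zpow_le_zpow_right₀ (by norm_num) (by omega)
  linarith

theorem sc_leW {x : ℝ} {i : ℕ} (h : (2 : ℝ) ^ (-(i : ℤ)) ≤ |x|) : sc x ≤ i := by
  have h0 : x ≠ 0 := by
    rintro rfl
    rw [abs_zero] at h
    have : (0 : ℝ) < (2 : ℝ) ^ (-(i : ℤ)) := by positivity
    linarith
  by_contra hc
  have h1 := (sc_spec h0).2
  have h2 : (2 : ℝ) ^ (1 - sc x) ≤ (2 : ℝ) ^ (-(i : ℤ)) :=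
    zpow_le_zpow_right₀ (by norm_num) (by omega)
  linarith

/-- The times of a pair are near. -/
theorem Ti_near {i : ℕ} {ω ω' : d.Om} (h : d.Ti i ω = d.Ti i ω') :
    |d.th (d.T ω') - d.th (d.T ω)| < (2 : ℝ) ^ (-(i : ℤ)) := by
  unfold Dat.Ti at h
  have h1 := Int.abs_sub_lt_one_of_floor_eq_floor h
  rw [← mul_sub, abs_mul, abs_of_pos (by positivity : (0 : ℝ) < 2 ^ i)] at h1
  rw [abs_sub_comm, zpow_neg, zpow_natCast, ← one_div, lt_div_iff₀ (by positivity), mul_comm]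
  exact h1

end

end Pool.OC
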