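import Pool.Agent.H20.OC.Geo

/-!
# OC, row ALS: the slopes at all scales agree
-/

set_option autoImplicit false

namespace Pool.OC

open Finset Real
open Pool.Agent.H49.Ent Pool.Agent.H32.Dense Pool.STK Pool.KAF

namespace ALS

variable (d : Dat) (J : d.Om → Set ℕ) (m : d.Lam → ℤ) (n : ℕ)

open Classical in
/-- The rows of the base, shifted by the label. -/
noncomputable def Jf (ω : d.Om) : Finset ℕ :=
  (range (d.X - 16 * n)).filter
    (fun j => 2 * n ≤ j ∧ (((8 * n + j : ℕ) : ℤ) + m (d.L ω)).toNat ∈ J ω)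

/-- The copies in the cell. -/
noncomputable def rk (s : ℕ) (ω : d.Om) : d.Om → ℝ :=
  cond d.P (fun v => d.GA m (8 * n + s) (d.L v)) (d.GA m (8 * n + s) (d.L ω))

/-- The partners at the scale `i`. -/
noncomputable def qk (i : ℕ) (ω : d.Om) : d.Om → ℝ :=
  cond d.P (fun v => (d.L v, d.Ti i v)) (d.L ω, d.Ti i ω)

/-- The spread of the tangential position. -/
noncomputable def Yk (a s : ℕ) : ℝ := (2 : ℝ) ^ (-(((8 * n + s : ℕ) : ℤ) + a))

/-- The precision of the slopes. -/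
noncomputable def hk (a k' k₁ : ℕ) (ω : d.Om) : ℝ := (2 : ℝ) ^ ((a : ℤ) + k' - m (d.L ω) - k₁)

/-- The slope of a pair. -/
noncomputable def ch (ω t : d.Om) : ℝ := d.sg (ω, t) / d.ta (ω, t)

/-- The form is not small. -/
def bad (a k' k₁ s : ℕ) (ω : d.Om) (χ : ℝ) : Set d.Om :=
  {v | hk d m a k' k₁ ω * Yk n a s <
    |(d.beR (d.L v) - d.beR (d.L ω)) - χ * (d.yR (d.L v) - d.yR (d.L ω))|}

theorem bad_row {a k' k₁ s : ℕ} {ω t v : d.Om}
    (hG : d.GA m (8 * n + s) (d.L v) = d.GA m (8 * n + s) (d.L ω)) {j : ℤ}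
    (ht : (2 : ℝ) ^ (-(j + k')) ≤ |d.ta (ω, t)|)
    (hv : v ∈ bad d m n a k' k₁ s ω (ch d ω t)) :
    (2 : ℝ) ^ (-(((8 * n + s : ℕ) : ℤ) + (m (d.L ω) + j) + k₁)) ≤
      |d.ZR (d.T ω) (d.T t) (d.L ω) - d.ZR (d.T ω) (d.T t) (d.L v)| := by
  have h0 : d.ta (ω, t) ≠ 0 := by
    intro h
    rw [h, abs_zero] at ht
    have : (0 : ℝ) < (2 : ℝ) ^ (-(j + k')) := by positivity
    linarith
  have h1 := GA_Z d m hG.symm (d.T ω) (d.T t)
  have h2 : d.ZR (d.T ω) (d.T t) (d.L ω) - d.ZR (d.T ω) (d.T t) (d.L v) =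
      -(d.ta (ω, t) * ((d.beR (d.L v) - d.beR (d.L ω)) -
        ch d ω t * (d.yR (d.L v) - d.yR (d.L ω)))) := by
    rw [h1]
    have h3 : d.ta (ω, t) * ch d ω t = d.sg (ω, t) := by
      unfold ch
      field_simp
    have h4 : d.ta (ω, t) * ((d.beR (d.L v) - d.beR (d.L ω)) -
        ch d ω t * (d.yR (d.L v) - d.yR (d.L ω))) =
        d.ta (ω, t) * (d.beR (d.L v) - d.beR (d.L ω)) -
        (d.ta (ω, t) * ch d ω t) * (d.yR (d.L v) - d.yR (d.L ω)) := by ring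
    rw [h4, h3]
    unfold Dat.ta Dat.sg
    ring
  rw [h2, abs_neg, abs_mul]
  have h5 : hk d m a k' k₁ ω * Yk n a s ≤
    |(d.beR (d.L v) - d.beR (d.L ω)) - ch d ω t * (d.yR (d.L v) - d.yR (d.L ω))| := le_of_lt hv
  refine le_trans (le_of_eq ?_) (mul_le_mul ht h5 (by unfold hk Yk; positivity) (abs_nonneg _))
  unfold hk Yk
  rw [← zpow_add₀ (by norm_num), ← zpow_add₀ (by norm_num)]
  congr 1
  ring

/-- Support of the pairs. -/
theorem Qp_pos {A : ℕ} (hOK : d.OK A) {i : ℕ} {w : d.Om × d.Om} (hw : 0 < d.Qp i w) :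
    0 < d.P w.1 ∧ 0 < d.P w.2 ∧ d.L w.1 = d.L w.2 ∧ d.Ti i w.1 = d.Ti i w.2 := by
  obtain ⟨h1, h2, h3⟩ := (glue_pos_iff (Z₁ := fun ω => (d.L ω, d.Ti i ω))
    (Z₂ := fun ω => (d.L ω, d.Ti i ω)) hOK.law.nonneg hOK.law.nonneg w).1 hw
  exact ⟨h1, h2, (Prod.ext_iff.1 h3).1, (Prod.ext_iff.1 h3).2⟩

theorem Qp_law {A : ℕ} (hOK : d.OK A) (i : ℕ) : IsLaw (d.Qp i) :=
  ⟨fun w => dbl_nonneg hOK.law.nonneg w, Pool.KAL.FRM.dbl_sum hOK.law _⟩

theorem ta_lt {A : ℕ} (hOK : d.OK A) {i : ℕ} {w : d.Om × d.Om} (hw : 0 < d.Qp i w) :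
    |d.ta w| < (2 : ℝ) ^ (-(i : ℤ)) := Ti_near d (Qp_pos d hOK hw).2.2.2

open Classical in
/-- The forms of the pairs at the scale `i` are atomic in the mean. -/
theorem vert {A k k₁ a k' : ℕ} {e : ℝ} (hOK : d.OK A) (hn : 1 ≤ n) (hk : a + 8 ≤ k)
    (hm : ∀ l, -(4 * n : ℤ) ≤ m l) (hRow : RowA d J m n k k₁ e) {i : ℕ} (hi : i < n) :
    ∑ s ∈ range (d.X - 16 * n), Ex d.P (fun ω => if s + i ∈ Jf d J m n ω then
      Ex (qk d i ω) (fun t => Pr (rk d m n s ω) (bad d m n a k' k₁ s ω (ch d ω t))) else 0) ≤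
    e * d.X + ((d.X - 16 * n : ℕ) : ℝ) *
      (Pr (d.Qp i) {w | |d.ta w| < (2 : ℝ) ^ (-((i : ℤ) + k'))} +
        Pr (d.Qp i) {w | (m (d.L w.1), d.T w.1, d.T w.2) ∉ gW d a}) := by
  have h1 := hRow i (by omega) (fun m' _ _ => m' + i) (gW d a) (by
    intro w v s hw hv hW hs hG
    obtain ⟨hP1, hP2, hL, hT⟩ := Qp_pos d hOK hw
    have h2 := size_gW d m (a := a) hG (d.T w.1) (d.T w.2) hW
    rw [abs_sub_comm]
    refine h2.trans ?_
    have h3 := (ta_lt d hOK hw).le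
    unfold Dat.ta at h3
    refine (mul_le_mul_of_nonneg_left h3 (by positivity)).trans ?_
    rw [← zpow_add₀ (by norm_num)]
    refine zpow_le_zpow_right₀ (by norm_num) ?_
    have : ((a + 8 : ℕ) : ℤ) ≤ k := by exact_mod_cast hk
    push_cast at this
    linarith)
  rw [Finset.sum_Ico_eq_sum_range, show d.X - 8 * n - 8 * n = d.X - 16 * n by omega] at h1
  set DD : ℝ := Pr (d.Qp i) {w | |d.ta w| < (2 : ℝ) ^ (-((i : ℤ) + k'))} with hDD
  set DW : ℝ := Pr (d.Qp i) {w | (m (d.L w.1), d.T w.1, d.T w.2) ∉ gW d a} with hDW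
  have h2 : e * d.X + ((d.X - 16 * n : ℕ) : ℝ) * (DD + DW) ≥
      ∑ s ∈ range (d.X - 16 * n), (Ex (d.Qp i) (Set.indicator
      {w | (m (d.L w.1), d.T w.1, d.T w.2) ∈ gW d a ∧
        0 ≤ ((8 * n + s : ℕ) : ℤ) + (m (d.L w.1) + i) ∧
        (((8 * n + s : ℕ) : ℤ) + (m (d.L w.1) + i)).toNat ∈ J w.1}
      (fun w => Pr (cond d.P (fun v => d.GA m (8 * n + s) (d.L v))
        (d.GA m (8 * n + s) (d.L w.1)))
        {v | (2 : ℝ) ^ (-(((8 * n + s : ℕ) : ℤ) + (m (d.L w.1) + i) + k₁)) ≤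
          |d.ZR (d.T w.1) (d.T w.2) (d.L w.1) - d.ZR (d.T w.1) (d.T w.2) (d.L v)|})) +
        (DD + DW)) := by
    rw [Finset.sum_add_distrib, Finset.sum_const, card_range, nsmul_eq_mul]
    have := h1
    linarith
  refine le_trans (Finset.sum_le_sum fun s hs => ?_) h2
  rw [← Ex_ind (d.Qp i)] at hDW
  rw [← Ex_ind (d.Qp i)] at hDD
  rw [hDD, hDW, ← Ex_add, ← Ex_add]
  have h3 : Ex d.P (fun ω => if s + i ∈ Jf d J m n ω then
      Ex (qk d i ω) (fun t => Pr (rk d m n s ω) (bad d m n a k' k₁ s ω (ch d ω t))) else 0) =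
      Ex (d.Qp i) (fun w => if s + i ∈ Jf d J m n w.1 then
        Pr (rk d m n s w.1) (bad d m n a k' k₁ s w.1 (ch d w.1 w.2)) else 0) := by
    unfold Dat.Qp
    rw [Ex_dbl]
    unfold Ex
    refine Finset.sum_congr rfl fun ω _ => ?_
    congr 1
    beta_reduce
    by_cases hJ : s + i ∈ Jf d J m n ω
    · simp only [if_pos hJ]
      rfl
    · simp only [if_neg hJ, mul_zero, Finset.sum_const_zero]
  rw [h3]
  refine Ex_mono (Qp_law d hOK i).nonneg fun w hw => ?_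
  obtain ⟨hP1, hP2, hL, hT⟩ := Qp_pos d hOK hw
  have hrl : IsLaw (rk d m n s w.1) := isLaw_cnd hOK.law _ hP1
  have hle1 := Pool.KAF.Pr_le_one hrl (bad d m n a k' k₁ s w.1 (ch d w.1 w.2))
  have hi0 : 0 ≤ Set.indicator
      {w | (m (d.L w.1), d.T w.1, d.T w.2) ∈ gW d a ∧
        0 ≤ ((8 * n + s : ℕ) : ℤ) + (m (d.L w.1) + i) ∧
        (((8 * n + s : ℕ) : ℤ) + (m (d.L w.1) + i)).toNat ∈ J w.1}
      (fun w : d.Om × d.Om => Pr (cond d.P (fun v => d.GA m (8 * n + s) (d.L v))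
        (d.GA m (8 * n + s) (d.L w.1)))
        {v | (2 : ℝ) ^ (-(((8 * n + s : ℕ) : ℤ) + (m (d.L w.1) + i) + k₁)) ≤
          |d.ZR (d.T w.1) (d.T w.2) (d.L w.1) - d.ZR (d.T w.1) (d.T w.2) (d.L v)|}) w :=
    Set.indicator_nonneg (fun w _ => Pool.KAF.Pr_nonneg
      (fun v => cond_nonneg hOK.law.nonneg _ _ v) _) w
  by_cases hJ : s + i ∈ Jf d J m n w.1
  · rw [if_pos hJ]
    by_cases hd : |d.ta w| < (2 : ℝ) ^ (-((i : ℤ) + k'))
    · rw [if_pos (show w ∈ {w | |d.ta w| < (2 : ℝ) ^ (-((i : ℤ) + k'))} from hd)]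
      have : (0 : ℝ) ≤ if w ∈ {w : d.Om × d.Om | (m (d.L w.1), d.T w.1, d.T w.2) ∉ gW d a}
        then 1 else 0 := by split_ifs <;> norm_num
      linarith
    by_cases hW : (m (d.L w.1), d.T w.1, d.T w.2) ∈ gW d a
    · rw [if_neg (show w ∉ {w | |d.ta w| < (2 : ℝ) ^ (-((i : ℤ) + k'))} from hd),
        if_neg (show w ∉ {w : d.Om × d.Om | (m (d.L w.1), d.T w.1, d.T w.2) ∉ gW d a} from
          fun h => h hW)]
      obtain ⟨-, f2, f3⟩ := mem_filter.1 hJ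
      have e1 : ((8 * n + (s + i) : ℕ) : ℤ) + m (d.L w.1) =
          ((8 * n + s : ℕ) : ℤ) + (m (d.L w.1) + i) := by push_cast; ring
      rw [e1] at f3
      have hmw := hm (d.L w.1)
      rw [Set.indicator_of_mem (show w ∈ {w : d.Om × d.Om |
        (m (d.L w.1), d.T w.1, d.T w.2) ∈ gW d a ∧
        0 ≤ ((8 * n + s : ℕ) : ℤ) + (m (d.L w.1) + i) ∧
        (((8 * n + s : ℕ) : ℤ) + (m (d.L w.1) + i)).toNat ∈ J w.1} from
        ⟨hW, by push_cast; linarith [Int.natCast_nonneg s, Int.natCast_nonneg i,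
          Int.natCast_nonneg n], f3⟩)]
      rw [add_zero, add_zero]
      refine Pool.KAF.Pr_mono hrl.nonneg fun v hv hvb => ?_
      have hv1 := (cond_pos_iff hOK.law.nonneg _ _ v).1 hv
      exact bad_row d m n hv1.2 (t := w.2) (j := i) (not_lt.1 hd) hvb
    · rw [if_pos (show w ∈ {w : d.Om × d.Om | (m (d.L w.1), d.T w.1, d.T w.2) ∉ gW d a} from hW)]
      have : (0 : ℝ) ≤ if w ∈ {w | |d.ta w| < (2 : ℝ) ^ (-((i : ℤ) + k'))}
        then 1 else 0 := by split_ifs <;> norm_num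
      linarith
  · rw [if_neg hJ]
    have g1 : (0 : ℝ) ≤ if w ∈ {w : d.Om × d.Om | (m (d.L w.1), d.T w.1, d.T w.2) ∉ gW d a}
        then 1 else 0 := by split_ifs <;> norm_num
    have g2 : (0 : ℝ) ≤ if w ∈ {w | |d.ta w| < (2 : ℝ) ^ (-((i : ℤ) + k'))}
        then 1 else 0 := by split_ifs <;> norm_num
    linarith

open Classical in
/-- The mass of the bad depths of a pair. -/
noncomputable def cw (a k' k₁ : ℕ) (w : d.Om × d.Om) : ℝ :=
  if (m (d.L w.1), d.T w.1, d.T w.2) ∈ gW d a ∧ sc (d.ta w) ≤ 2 * n then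
    ∑ s ∈ range (d.X - 16 * n), (if s + (sc (d.ta w)).toNat ∈ Jf d J m n w.1 then
      Pr (rk d m n s w.1) (bad d m n a k' k₁ s w.1 (ch d w.1 w.2)) else 0) else 0

open Classical in
/-- The forms of the pairs are atomic at their effective scale. -/
theorem eff {A k k₁ a k' : ℕ} {e : ℝ} (hOK : d.OK A) (hn : 1 ≤ n) (hk : a + 8 ≤ k)
    (hm : ∀ l, -(4 * n : ℤ) ≤ m l) (hRow : RowA d J m n k k₁ e) {i : ℕ} (hi : i < n) :
    Ex (d.Qp i) (cw d J m n a k' k₁) ≤ e * d.X := by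
  have h1 := hRow i (by omega) (fun m' t₁ t₀ => m' + sc (d.th t₀ - d.th t₁)) (gW d a) (by
    intro w v s hw hv hW hs hG
    obtain ⟨hP1, hP2, hL, hT⟩ := Qp_pos d hOK hw
    have h2 := size_gW d m (a := a) hG (d.T w.1) (d.T w.2) hW
    rw [abs_sub_comm]
    refine h2.trans ?_
    have h3 := (sc_spec hW.1).2.le
    refine (mul_le_mul_of_nonneg_left h3 (by positivity)).trans ?_
    rw [← zpow_add₀ (by norm_num)]
    refine zpow_le_zpow_right₀ (by norm_num) ?_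
    have : ((a + 8 : ℕ) : ℤ) ≤ k := by exact_mod_cast hk
    push_cast at this
    linarith)
  rw [Finset.sum_Ico_eq_sum_range, show d.X - 8 * n - 8 * n = d.X - 16 * n by omega] at h1
  refine le_trans ?_ h1
  have h2 : ∑ s ∈ range (d.X - 16 * n), Ex (d.Qp i) (Set.indicator
      {w | (m (d.L w.1), d.T w.1, d.T w.2) ∈ gW d a ∧
        0 ≤ ((8 * n + s : ℕ) : ℤ) + (m (d.L w.1) + sc (d.th (d.T w.2) - d.th (d.T w.1))) ∧
        (((8 * n + s : ℕ) : ℤ) + (m (d.L w.1) + sc (d.th (d.T w.2) - d.th (d.T w.1)))).toNat ∈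
          J w.1}
      (fun w => Pr (cond d.P (fun v => d.GA m (8 * n + s) (d.L v))
        (d.GA m (8 * n + s) (d.L w.1)))
        {v | (2 : ℝ) ^ (-(((8 * n + s : ℕ) : ℤ) +
          (m (d.L w.1) + sc (d.th (d.T w.2) - d.th (d.T w.1))) + k₁)) ≤
          |d.ZR (d.T w.1) (d.T w.2) (d.L w.1) - d.ZR (d.T w.1) (d.T w.2) (d.L v)|})) =
      Ex (d.Qp i) (fun w => ∑ s ∈ range (d.X - 16 * n), Set.indicator
      {w | (m (d.L w.1), d.T w.1, d.T w.2) ∈ gW d a ∧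
        0 ≤ ((8 * n + s : ℕ) : ℤ) + (m (d.L w.1) + sc (d.th (d.T w.2) - d.th (d.T w.1))) ∧
        (((8 * n + s : ℕ) : ℤ) + (m (d.L w.1) + sc (d.th (d.T w.2) - d.th (d.T w.1)))).toNat ∈
          J w.1}
      (fun w : d.Om × d.Om => Pr (cond d.P (fun v => d.GA m (8 * n + s) (d.L v))
        (d.GA m (8 * n + s) (d.L w.1)))
        {v | (2 : ℝ) ^ (-(((8 * n + s : ℕ) : ℤ) +
          (m (d.L w.1) + sc (d.th (d.T w.2) - d.th (d.T w.1))) + k₁)) ≤
          |d.ZR (d.T w.1) (d.T w.2) (d.L w.1) - d.ZR (d.T w.1) (d.T w.2) (d.L v)|}) w) := by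
    unfold Ex
    simp only [Finset.mul_sum]
    exact Finset.sum_comm
  refine le_trans ?_ h2.ge
  refine Ex_mono (Qp_law d hOK i).nonneg fun w hw => ?_
  obtain ⟨hP1, hP2, hL, hT⟩ := Qp_pos d hOK hw
  unfold cw
  have hi0 : ∀ s, 0 ≤ Set.indicator
      {w | (m (d.L w.1), d.T w.1, d.T w.2) ∈ gW d a ∧
        0 ≤ ((8 * n + s : ℕ) : ℤ) + (m (d.L w.1) + sc (d.th (d.T w.2) - d.th (d.T w.1))) ∧
        (((8 * n + s : ℕ) : ℤ) + (m (d.L w.1) + sc (d.th (d.T w.2) - d.th (d.T w.1)))).toNat ∈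
          J w.1}
      (fun w : d.Om × d.Om => Pr (cond d.P (fun v => d.GA m (8 * n + s) (d.L v))
        (d.GA m (8 * n + s) (d.L w.1)))
        {v | (2 : ℝ) ^ (-(((8 * n + s : ℕ) : ℤ) +
          (m (d.L w.1) + sc (d.th (d.T w.2) - d.th (d.T w.1))) + k₁)) ≤
          |d.ZR (d.T w.1) (d.T w.2) (d.L w.1) - d.ZR (d.T w.1) (d.T w.2) (d.L v)|}) w :=
    fun s => Set.indicator_nonneg (fun w _ => Pool.KAF.Pr_nonneg
      (fun v => cond_nonneg hOK.law.nonneg _ _ v) _) w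
  by_cases hc : (m (d.L w.1), d.T w.1, d.T w.2) ∈ gW d a ∧ sc (d.ta w) ≤ 2 * n
  · rw [if_pos hc]
    refine Finset.sum_le_sum fun s hs => ?_
    by_cases hJ : s + (sc (d.ta w)).toNat ∈ Jf d J m n w.1
    · rw [if_pos hJ]
      obtain ⟨-, f2, f3⟩ := mem_filter.1 hJ
      have hta0 : d.ta w ≠ 0 := hc.1.1
      have hsc := sc_ge hta0 (ta_lt d hOK hw)
      have hsc0 : ((sc (d.ta w)).toNat : ℤ) = sc (d.ta w) := Int.toNat_of_nonneg (by omega)
      have e1 : ((8 * n + (s + (sc (d.ta w)).toNat) : ℕ) : ℤ) + m (d.L w.1) =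
          ((8 * n + s : ℕ) : ℤ) + (m (d.L w.1) + sc (d.th (d.T w.2) - d.th (d.T w.1))) := by
        have : sc (d.th (d.T w.2) - d.th (d.T w.1)) = sc (d.ta w) := rfl
        rw [this]
        generalize (sc (d.ta w)).toNat = N at hsc0
        rw [← hsc0]
        push_cast
        ring
      rw [e1] at f3
      have hmw := hm (d.L w.1)
      rw [Set.indicator_of_mem (show w ∈ {w : d.Om × d.Om |
        (m (d.L w.1), d.T w.1, d.T w.2) ∈ gW d a ∧
        0 ≤ ((8 * n + s : ℕ) : ℤ) + (m (d.L w.1) + sc (d.th (d.T w.2) - d.th (d.T w.1))) ∧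
        (((8 * n + s : ℕ) : ℤ) + (m (d.L w.1) + sc (d.th (d.T w.2) - d.th (d.T w.1)))).toNat ∈
          J w.1} from
        ⟨hc.1, by
          have : sc (d.th (d.T w.2) - d.th (d.T w.1)) = sc (d.ta w) := rfl
          rw [this]
          push_cast
          linarith [Int.natCast_nonneg s, Int.natCast_nonneg i, Int.natCast_nonneg n], f3⟩)]
      refine Pool.KAF.Pr_mono (fun v => cond_nonneg hOK.law.nonneg _ _ v) fun v hv hvb => ?_
      have hv1 := (cond_pos_iff hOK.law.nonneg _ _ v).1 hv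
      refine bad_row d m n hv1.2 (t := w.2) (j := sc (d.ta w)) ?_ hvb
      refine le_trans (zpow_le_zpow_right₀ (by norm_num) ?_) (sc_spec hta0).1
      linarith [Int.natCast_nonneg k']
    · rw [if_neg hJ]
      exact hi0 s
  · rw [if_neg hc]
    exact Finset.sum_nonneg fun s _ => hi0 s

end ALS

end Pool.OC
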